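import Mathlib

/-!
Project Ce (helper63): determinants of block triangular maps.
-/

set_option autoImplicit false

open Set

namespace Pool.Agent.Helper63.Ce

section
variable {M N : Type} [AddCommGroup M] [Module ℝ M] [AddCommGroup N] [Module ℝ N]

/-- block triangular maps -/
def bt (A : M →ₗ[ℝ] M) (B : N →ₗ[ℝ] M) (D : N →ₗ[ℝ] N) : (M × N) →ₗ[ℝ] (M × N) where
  toFun p := (A p.1 + B p.2, D p.2)
  map_add' p q := by
    refine Prod.ext ?_ ?_
    · show A (p.1 + q.1) + B (p.2 + q.2) = A p.1 + B p.2 + (A q.1 + B q.2)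
      rw [map_add, map_add]; abel
    · show D (p.2 + q.2) = D p.2 + D q.2
      rw [map_add]
  map_smul' c p := by
    refine Prod.ext ?_ ?_
    · show A (c • p.1) + B (c • p.2) = c • (A p.1 + B p.2)
      rw [map_smul, map_smul, smul_add]
    · show D (c • p.2) = c • (D p.2)
      rw [map_smul]

theorem bt_apply (A : M →ₗ[ℝ] M) (B : N →ₗ[ℝ] M) (D : N →ₗ[ℝ] N) (p : M × N) :
    bt A B D p = (A p.1 + B p.2, D p.2) := rfl

theorem abs_det_bt [FiniteDimensional ℝ M] [FiniteDimensional ℝ N] (A : M →ₗ[ℝ] M)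
    (B : N →ₗ[ℝ] M) (D : N →ₗ[ℝ] N) :
    |LinearMap.det (bt A B D)| = |LinearMap.det A| * |LinearMap.det D| := by
  have h1 : bt A B D = (LinearMap.prodMap LinearMap.id D) ∘ₗ bt LinearMap.id B LinearMap.id ∘ₗ
      (LinearMap.prodMap A LinearMap.id) := by
    apply LinearMap.ext
    intro p
    rfl
  have h2 : |LinearMap.det (bt (LinearMap.id : M →ₗ[ℝ] M) B LinearMap.id)| = 1 := by
    let P : (M × N) ≃ₗ[ℝ] (M × N) := (LinearEquiv.refl ℝ M).prodCongr (LinearEquiv.neg ℝ)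
    have h3 : bt (LinearMap.id : M →ₗ[ℝ] M) (-B) LinearMap.id = (P : (M × N) →ₗ[ℝ] (M × N)) ∘ₗ
        bt LinearMap.id B LinearMap.id ∘ₗ (P.symm : (M × N) →ₗ[ℝ] (M × N)) := by
      apply LinearMap.ext
      intro p
      show (p.1 + (-B) p.2, p.2) = (p.1 + B (-p.2), -(-p.2))
      rw [neg_neg, map_neg]
      rfl
    have h4 : LinearMap.det (bt (LinearMap.id : M →ₗ[ℝ] M) (-B) LinearMap.id) =
        LinearMap.det (bt (LinearMap.id : M →ₗ[ℝ] M) B LinearMap.id) := by
      rw [h3]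
      exact LinearMap.det_conj _ P
    have h5 : bt (LinearMap.id : M →ₗ[ℝ] M) B LinearMap.id ∘ₗ bt LinearMap.id (-B) LinearMap.id =
        LinearMap.id := by
      apply LinearMap.ext
      intro p
      refine Prod.ext ?_ rfl
      show p.1 + (-B) p.2 + B p.2 = p.1
      rw [LinearMap.neg_apply]
      abel
    have h6 := congrArg LinearMap.det h5
    rw [LinearMap.det_comp, h4, LinearMap.det_id] at h6
    have h7 : |LinearMap.det (bt (LinearMap.id : M →ₗ[ℝ] M) B LinearMap.id)| *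
        |LinearMap.det (bt (LinearMap.id : M →ₗ[ℝ] M) B LinearMap.id)| = 1 := by
      rw [← abs_mul, h6, abs_one]
    have h8 := abs_nonneg (LinearMap.det (bt (LinearMap.id : M →ₗ[ℝ] M) B LinearMap.id))
    nlinarith
  rw [h1, LinearMap.det_comp, LinearMap.det_comp, abs_mul, abs_mul, h2, one_mul,
    LinearMap.det_prodMap, LinearMap.det_prodMap, LinearMap.det_id, LinearMap.det_id, one_mul,
    mul_one, mul_comm]

/-- the determinant on an extension -/
theorem det_ext [FiniteDimensional ℝ M] [FiniteDimensional ℝ N] (f : M →ₗ[ℝ] M)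
    (T T' : Submodule ℝ M) (hT : ∀ x ∈ T, f x ∈ T) (hT' : ∀ x ∈ T', f x ∈ T') (hle : T ≤ T')
    (φ : N →ₗ[ℝ] M) (h1 : ∀ v, φ v ∈ T') (h2 : ∀ x ∈ T', ∃ v, x - φ v ∈ T)
    (h3 : ∀ v, φ v ∈ T → v = 0) (D : N →ₗ[ℝ] N) (hD : ∀ v, f (φ v) - φ (D v) ∈ T) :
    |LinearMap.det (f.restrict hT')| = |LinearMap.det (f.restrict hT)| * |LinearMap.det D| := by
  let B : N →ₗ[ℝ] T := LinearMap.codRestrict T (f ∘ₗ φ - φ ∘ₗ D) hD
  let j : (T × N) →ₗ[ℝ] T' := LinearMap.codRestrict T'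
    (T.subtype ∘ₗ LinearMap.fst ℝ T N + φ ∘ₗ LinearMap.snd ℝ T N) (fun p => by
      refine T'.add_mem (hle p.1.2) (h1 _))
  have hj : ∀ p : T × N, ((j p : T') : M) = (p.1 : M) + φ p.2 := fun p => rfl
  have hinj : Function.Injective j := by
    rw [← LinearMap.ker_eq_bot, LinearMap.ker_eq_bot']
    intro p hp
    have h4 := congrArg (fun x : T' => (x : M)) hp
    have h5 : (p.1 : M) + φ p.2 = 0 := h4
    have h6 : φ p.2 ∈ T := by
      have : φ p.2 = -(p.1 : M) := by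
        rw [eq_neg_iff_add_eq_zero, add_comm]; exact h5
      rw [this]
      exact T.neg_mem p.1.2
    have h7 := h3 _ h6
    rw [h7, map_zero, add_zero] at h5
    exact Prod.ext (Subtype.ext h5) h7
  have hsurj : Function.Surjective j := by
    intro x
    obtain ⟨v, hv⟩ := h2 x x.2
    refine ⟨(⟨_, hv⟩, v), Subtype.ext ?_⟩
    rw [hj]
    show (x : M) - φ v + φ v = x
    rw [sub_add_cancel]
  let e : (T × N) ≃ₗ[ℝ] T' := LinearEquiv.ofBijective j ⟨hinj, hsurj⟩
  have h8 : f.restrict hT' = (e : (T × N) →ₗ[ℝ] T') ∘ₗ bt (f.restrict hT) B D ∘ₗ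
      (e.symm : T' →ₗ[ℝ] (T × N)) := by
    apply LinearMap.ext
    intro x
    obtain ⟨p, rfl⟩ := e.surjective x
    apply Subtype.ext
    show f ((j p : T') : M) = ((j (bt (f.restrict hT) B D (e.symm (e p))) : T') : M)
    rw [e.symm_apply_apply, hj, hj, bt_apply, map_add]
    show f p.1 + f (φ p.2) = (f p.1 + (f (φ p.2) - φ (D p.2))) + φ (D p.2)
    abel
  rw [h8, LinearMap.det_conj, abs_det_bt]

end

end Pool.Agent.Helper63.Ce
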