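import Pool.Agent.Helper63.Ce.Fl

/-!
Project Ce (helper63): the determinant on the filtration is a power of the one on the quotient.
-/

set_option autoImplicit false

open Set Filter Topology NormedSpace

namespace Pool.Agent.Helper63.Ce

open Pool.Agent.Helper63.SV (rep vecL flow hatL)

section dt
variable {E H V : Type} [NormedAddCommGroup E] [NormedSpace ℝ E] [FiniteDimensional ℝ E]
  {k : ℕ} [Group H] [AddCommGroup V] [Module ℝ V] [FiniteDimensional ℝ V]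
  {B : Fin k → ((E × ℝ) →L[ℝ] (E × ℝ))}

/-- the determinant on `T` is a power of the determinant `δ` -/
def PP (ρ : H →* ((E × ℝ) →L[ℝ] (E × ℝ))) (δ : H → ℝ) (T : Submodule ℝ (E × ℝ)) : Prop :=
  ∃ h : ∀ γ, ∀ x ∈ T, ((ρ γ : (E × ℝ) →L[ℝ] (E × ℝ)) : (E × ℝ) →ₗ[ℝ] (E × ℝ)) x ∈ T, ∃ a : ℕ, ∀ γ,
    |LinearMap.det (((ρ γ : (E × ℝ) →L[ℝ] (E × ℝ)) : (E × ℝ) →ₗ[ℝ] (E × ℝ)).restrict (h γ))| =
      |δ γ| ^ a

/-- the situation -/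
structure Lf (B : Fin k → ((E × ℝ) →L[ℝ] (E × ℝ))) (ρ : H →* ((E × ℝ) →L[ℝ] (E × ℝ)))
    (e0 : V →ₗ[ℝ] E) (D : H → (V →ₗ[ℝ] V)) : Prop where
  hB : ∀ i p, (B i p).2 = 0
  hρ : ∀ γ i, Commute (ρ γ) (B i)
  hρ2 : ∀ γ p, (ρ γ p).2 = p.2
  s1 : ∀ γ v, ρ γ (e0 v, 0) - (e0 (D γ v), 0) ∈ Fh B 1
  s2 : ∀ x : E, ∃ v, ((x, 0) : E × ℝ) - (e0 v, 0) ∈ Fh B 1
  s3 : ∀ v, ((e0 v, 0) : E × ℝ) ∈ Fh B 1 → v = 0
  irr : ∀ U : Submodule ℝ V, (∀ γ, ∀ u ∈ U, D γ u ∈ U) → U = ⊥ ∨ U = ⊤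

variable {ρ : H →* ((E × ℝ) →L[ℝ] (E × ℝ))} {e0 : V →ₗ[ℝ] E} {D : H → (V →ₗ[ℝ] V)}

theorem Lf.step (F : Lf B ρ e0 D) {T : Submodule ℝ (E × ℝ)}
    (hT : PP ρ (fun γ => LinearMap.det (D γ)) T) (w : (E × ℝ) →L[ℝ] (E × ℝ))
    (hw : ∀ γ, Commute (ρ γ) w) (hw1 : ∀ p ∈ Fh B 1, w p ∈ T) :
    ∃ T', PP ρ (fun γ => LinearMap.det (D γ)) T' ∧ T ≤ T' ∧ (∀ p, w p ∈ T') ∧
      ∀ U : Submodule ℝ (E × ℝ), T ≤ U → (∀ p, w p ∈ U) → T' ≤ U := by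
  have hcw : ∀ γ p, ρ γ (w p) = w (ρ γ p) := fun γ p =>
    congrArg (fun T : (E × ℝ) →L[ℝ] (E × ℝ) => T p) (hw γ).eq
  -- first step
  let φ : V →ₗ[ℝ] (E × ℝ) := (w : (E × ℝ) →ₗ[ℝ] (E × ℝ)) ∘ₗ LinearMap.inl ℝ E ℝ ∘ₗ e0
  have hφ : ∀ v, φ v = w (e0 v, 0) := fun v => rfl
  have hφD : ∀ γ v, ρ γ (φ v) - φ (D γ v) ∈ T := by
    intro γ v
    rw [hφ, hφ, hcw, ← map_sub]
    exact hw1 _ (F.s1 γ v)
  have hA : ∃ T1, PP ρ (fun γ => LinearMap.det (D γ)) T1 ∧ T ≤ T1 ∧ (∀ v, φ v ∈ T1) ∧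
      ∀ U : Submodule ℝ (E × ℝ), T ≤ U → (∀ p, w p ∈ U) → T1 ≤ U := by
    obtain ⟨hinv, a, ha⟩ := hT
    rcases F.irr (T.comap φ) (fun γ u hu => by
      have h1 := hφD γ u
      have h2 : φ (D γ u) = ρ γ (φ u) - (ρ γ (φ u) - φ (D γ u)) := by abel
      show φ (D γ u) ∈ T
      rw [h2]
      exact T.sub_mem (hinv γ _ hu) h1) with hU | hU
    · have h4 : ∀ γ, ∀ x ∈ T ⊔ LinearMap.range φ,
          ((ρ γ : (E × ℝ) →L[ℝ] (E × ℝ)) : (E × ℝ) →ₗ[ℝ] (E × ℝ)) x ∈ T ⊔ LinearMap.range φ := by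
        intro γ x hx
        obtain ⟨t, ht, _, ⟨v, rfl⟩, rfl⟩ := Submodule.mem_sup.1 hx
        have h5 : ((ρ γ : (E × ℝ) →L[ℝ] (E × ℝ)) : (E × ℝ) →ₗ[ℝ] (E × ℝ)) (t + φ v) =
            (ρ γ t + (ρ γ (φ v) - φ (D γ v))) + φ (D γ v) := by
          rw [map_add]
          show ρ γ t + ρ γ (φ v) = _
          abel
        rw [h5]
        exact Submodule.add_mem_sup (T.add_mem (hinv γ t ht) (hφD γ v)) ⟨_, rfl⟩
      refine ⟨T ⊔ LinearMap.range φ, ⟨h4, a + 1, fun γ => ?_⟩, le_sup_left,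
        fun v => Submodule.mem_sup_right ⟨v, rfl⟩, ?_⟩
      · rw [det_ext (((ρ γ : (E × ℝ) →L[ℝ] (E × ℝ)) : (E × ℝ) →ₗ[ℝ] (E × ℝ))) T
          (T ⊔ LinearMap.range φ) (hinv γ) (h4 γ) le_sup_left φ
          (fun v => Submodule.mem_sup_right ⟨v, rfl⟩) ?_ ?_ (D γ) (hφD γ), ha, pow_succ]
        · intro x hx
          obtain ⟨t, ht, _, ⟨v, rfl⟩, rfl⟩ := Submodule.mem_sup.1 hx
          exact ⟨v, by rwa [add_sub_cancel_right]⟩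
        · intro v hv
          have h6 : v ∈ T.comap φ := hv
          rw [hU] at h6
          exact h6
      · intro U h1 h2
        refine sup_le h1 ?_
        rintro _ ⟨v, rfl⟩
        exact h2 _
    · refine ⟨T, ⟨hinv, a, ha⟩, le_rfl, fun v => ?_, fun U h1 _ => h1⟩
      have h6 : v ∈ T.comap φ := by rw [hU]; trivial
      exact h6
  obtain ⟨T1, hT1, hle1, hφ1, hU1⟩ := hA
  have hw0 : ∀ x : E, w (x, 0) ∈ T1 := by
    intro x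
    obtain ⟨v, hv⟩ := F.s2 x
    have h1 : w (x, 0) = w ((x, 0) - (e0 v, 0)) + φ v := by
      rw [hφ, map_sub, sub_add_cancel]
    rw [h1]
    exact T1.add_mem (hle1 (hw1 _ hv)) (hφ1 v)
  set u : E × ℝ := w (0, 1) with hu
  have hwp : ∀ p : E × ℝ, w p = w (p.1, 0) + p.2 • u := by
    intro p
    rw [hu, ← map_smul, ← map_add]
    congr 1
    refine Prod.ext ?_ ?_
    · show p.1 = p.1 + p.2 • 0
      rw [smul_zero, add_zero]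
    · show p.2 = 0 + p.2 • (1 : ℝ)
      rw [smul_eq_mul, mul_one, zero_add]
  have hru : ∀ γ, ρ γ u - u ∈ T1 := by
    intro γ
    have h1 : ρ γ u = w ((ρ γ (0, 1)).1, 0) + (ρ γ ((0, 1) : E × ℝ)).2 • u := by
      rw [hu, hcw, ← hu, ← hwp]
    rw [h1, F.hρ2]
    show _ + (1 : ℝ) • u - u ∈ T1
    rw [one_smul, add_sub_cancel_right]
    exact hw0 _
  by_cases huT : u ∈ T1
  · refine ⟨T1, hT1, hle1, fun p => ?_, hU1⟩
    rw [hwp]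
    exact T1.add_mem (hw0 _) (T1.smul_mem _ huT)
  · obtain ⟨hinv, a, ha⟩ := hT1
    let ψ : ℝ →ₗ[ℝ] (E × ℝ) := LinearMap.toSpanSingleton ℝ (E × ℝ) u
    have hψ : ∀ r, ψ r = r • u := fun r => rfl
    have h4 : ∀ γ, ∀ x ∈ T1 ⊔ LinearMap.range ψ,
        ((ρ γ : (E × ℝ) →L[ℝ] (E × ℝ)) : (E × ℝ) →ₗ[ℝ] (E × ℝ)) x ∈ T1 ⊔ LinearMap.range ψ := by
      intro γ x hx
      obtain ⟨t, ht, _, ⟨r, rfl⟩, rfl⟩ := Submodule.mem_sup.1 hx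
      have h5 : ((ρ γ : (E × ℝ) →L[ℝ] (E × ℝ)) : (E × ℝ) →ₗ[ℝ] (E × ℝ)) (t + ψ r) =
          (ρ γ t + r • (ρ γ u - u)) + ψ r := by
        rw [map_add, hψ, map_smul, smul_sub]
        show ρ γ t + r • ρ γ u = _
        abel
      rw [h5]
      exact Submodule.add_mem_sup (T1.add_mem (hinv γ t ht) (T1.smul_mem _ (hru γ))) ⟨_, rfl⟩
    refine ⟨T1 ⊔ LinearMap.range ψ, ⟨h4, a, fun γ => ?_⟩, hle1.trans le_sup_left, fun p => ?_, ?_⟩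
    · rw [det_ext (((ρ γ : (E × ℝ) →L[ℝ] (E × ℝ)) : (E × ℝ) →ₗ[ℝ] (E × ℝ))) T1
        (T1 ⊔ LinearMap.range ψ) (hinv γ) (h4 γ) le_sup_left ψ
        (fun v => Submodule.mem_sup_right ⟨v, rfl⟩) ?_ ?_ LinearMap.id ?_, ha, LinearMap.det_id,
        abs_one, mul_one]
      · intro x hx
        obtain ⟨t, ht, _, ⟨v, rfl⟩, rfl⟩ := Submodule.mem_sup.1 hx
        exact ⟨v, by rwa [add_sub_cancel_right]⟩
      · intro r hr
        by_contra hr0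
        apply huT
        have h6 := T1.smul_mem r⁻¹ hr
        rwa [hψ, smul_smul, inv_mul_cancel₀ hr0, one_smul] at h6
      · intro r
        rw [hψ]
        show ρ γ (r • u) - r • u ∈ T1
        rw [map_smul, ← smul_sub]
        exact T1.smul_mem _ (hru γ)
    · rw [hwp]
      refine Submodule.add_mem _ (Submodule.mem_sup_left (hw0 _)) (Submodule.mem_sup_right ⟨p.2, rfl⟩)
    · intro U h1 h2
      refine sup_le (hU1 U h1 h2) ?_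
      rintro _ ⟨r, rfl⟩
      rw [hψ]
      exact U.smul_mem _ (h2 _)

theorem Lf.pp (F : Lf B ρ e0 D) (hBc : ∀ i j, Commute (B i) (B j))
    (hn : ∀ i, IsNilpotent (B i)) : PP ρ (fun γ => LinearMap.det (D γ)) (Fh B 1) := by
  obtain ⟨m, hm1, hm⟩ := Fh_nil hBc hn
  let 𝒞 : Set (Submodule ℝ (E × ℝ)) := {T | PP ρ (fun γ => LinearMap.det (D γ)) T ∧ T ≤ Fh B 1}
  have h0 : (⊥ : Submodule ℝ (E × ℝ)) ∈ 𝒞 := by
    have h1 : ∀ γ, ∀ x ∈ (⊥ : Submodule ℝ (E × ℝ)),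
        ((ρ γ : (E × ℝ) →L[ℝ] (E × ℝ)) : (E × ℝ) →ₗ[ℝ] (E × ℝ)) x ∈ (⊥ : Submodule ℝ (E × ℝ)) := by
      intro γ x hx
      rw [Submodule.mem_bot] at hx ⊢
      rw [hx, map_zero]
    refine ⟨⟨h1, 0, fun γ => ?_⟩, bot_le⟩
    rw [pow_zero]
    have h2 : Module.finrank ℝ (⊥ : Submodule ℝ (E × ℝ)) = 0 := finrank_bot ℝ _
    rw [LinearMap.det_eq_one_of_finrank_eq_zero h2, abs_one]
  obtain ⟨T, hT, hmax⟩ := (wellFounded_gt : WellFounded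
    ((· > ·) : Submodule ℝ (E × ℝ) → Submodule ℝ (E × ℝ) → Prop)).has_min 𝒞 ⟨_, h0⟩
  have key : ∀ i j, j + i = m → 1 ≤ j → Fh B j ≤ T := by
    intro i
    induction i with
    | zero =>
      intro j hj _
      rw [Nat.add_zero] at hj
      rw [hj, hm]
      exact bot_le
    | succ i ih =>
      intro j hj hj1
      have h1 := ih (j + 1) (by omega) (by omega)
      refine Fh_le fun w hw p => ?_
      obtain ⟨T', hT', hle, hwp, hU⟩ := F.step hT.1 w (fun γ => Wd_comm (F.hρ γ) hw)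
        (fun p hp => h1 (Wd_Fh hw hp))
      have h2 : T' ∈ 𝒞 := ⟨hT', hU _ hT.2 fun p => Fh_mono hj1 (Wd_mem hw p)⟩
      have h3 : T' = T := by
        by_contra hne
        exact hmax T' h2 (lt_of_le_of_ne hle (Ne.symm hne))
      rw [← h3]
      exact hwp p
  have h5 : Fh B 1 = T := le_antisymm (key (m - 1) 1 (by omega) le_rfl) hT.2
  rw [h5]
  exact hT.1

/-- the determinant on the quotient -/
theorem Lf.det_one (F : Lf B ρ e0 D) (hBc : ∀ i j, Commute (B i) (B j))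
    (hn : ∀ i, IsNilpotent (B i)) (L : H → (E →ₗ[ℝ] E)) (hL : ∀ γ v, ρ γ (v, 0) = (L γ v, 0))
    (hdet : ∀ γ, |LinearMap.det (L γ)| = 1) (γ : H) : |LinearMap.det (D γ)| = 1 := by
  obtain ⟨hinv, a, ha⟩ := F.pp hBc hn
  let E0 : Submodule ℝ (E × ℝ) := LinearMap.range (LinearMap.inl ℝ E ℝ)
  have h1 : ∀ x ∈ E0, ((ρ γ : (E × ℝ) →L[ℝ] (E × ℝ)) : (E × ℝ) →ₗ[ℝ] (E × ℝ)) x ∈ E0 := by
    rintro _ ⟨v, rfl⟩
    exact ⟨L γ v, (hL γ v).symm⟩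
  have h2 : Fh B 1 ≤ E0 := by
    intro p hp
    refine ⟨p.1, ?_⟩
    show (p.1, (0 : ℝ)) = p
    rw [← Fh_snd F.hB le_rfl hp]
  have h3 := det_ext ((ρ γ : (E × ℝ) →L[ℝ] (E × ℝ)) : (E × ℝ) →ₗ[ℝ] (E × ℝ)) (Fh B 1) E0 (hinv γ)
    h1 h2 (LinearMap.inl ℝ E ℝ ∘ₗ e0) (fun v => ⟨_, rfl⟩) (by
      rintro _ ⟨x, rfl⟩
      exact F.s2 x) F.s3 (D γ) (F.s1 γ)
  have h4 : LinearMap.det (((ρ γ : (E × ℝ) →L[ℝ] (E × ℝ)) : (E × ℝ) →ₗ[ℝ] (E × ℝ)).restrict h1) =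
      LinearMap.det (L γ) := by
    let e : E ≃ₗ[ℝ] E0 := LinearEquiv.ofInjective (LinearMap.inl ℝ E ℝ) LinearMap.inl_injective
    have h5 : ((ρ γ : (E × ℝ) →L[ℝ] (E × ℝ)) : (E × ℝ) →ₗ[ℝ] (E × ℝ)).restrict h1 =
        (e : E →ₗ[ℝ] E0) ∘ₗ L γ ∘ₗ (e.symm : E0 →ₗ[ℝ] E) := by
      apply LinearMap.ext
      intro x
      obtain ⟨v, rfl⟩ := e.surjective x
      apply Subtype.ext
      show ρ γ (v, 0) = (L γ (e.symm (e v)), 0)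
      rw [e.symm_apply_apply, hL]
    rw [h5, LinearMap.det_conj]
  rw [h4, hdet, ha] at h3
  have h6 : |LinearMap.det (D γ)| ^ (a + 1) = 1 := by
    rw [pow_succ]
    exact h3.symm
  have h7 := abs_nonneg (LinearMap.det (D γ))
  exact (pow_eq_one_iff_of_nonneg h7 (by omega)).1 h6

end dt

end Pool.Agent.Helper63.Ce
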