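import Pool.Agent.Helper63.Ce.Pln

/-!
Project Ce (helper63): the quotient of the plane and the main theorem.
-/

set_option autoImplicit false

open Set Filter Topology NormedSpace
open scoped Matrix commutatorElement

namespace Pool.Agent.Helper63.Ce

open Pool.Agent.Helper63.SV (rep vecL flow hatL hatL_apply hatL_snd al_ext exp_snd flow_eq flow_add
  flow_zero flow_cont flow_pres_of_nhds exp_fix vecL_apply vecL_snd vecL_comm exists_logs key_lat)
open Pool.Agent.W689.Mk Pool.Agent.TH94.MK Pool.Agent.Y449.MK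
open Pool.Agent.Helper63.Mk (V2 M2 Sk mm mv0 mv1 v2ext m2ext lam lam_apply lam_zero)

section
variable {X H E : Type} [NormedAddCommGroup E] [NormedSpace ℝ E] [FiniteDimensional ℝ E]
  [TopologicalSpace X] [T2Space X] [Group H] [MulAction H X]
  {dev : X → E} {hol : H →* (E ≃ᵃ[ℝ] E)} {k : ℕ} {B : Fin k → ((E × ℝ) →L[ℝ] (E × ℝ))}
  {γm : (Fin k → ℤ) → H}

/-- the plane quotient -/
structure Pq (B : Fin k → ((E × ℝ) →L[ℝ] (E × ℝ))) (e0 : V2 →ₗ[ℝ] E) (π : E →ₗ[ℝ] V2) : Prop where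
  sec : ∀ v, π (e0 v) = v
  ker : ∀ x, π x = 0 ↔ ((x, 0) : E × ℝ) ∈ Fh B 1

variable {e0 : V2 →ₗ[ℝ] E} {π : E →ₗ[ℝ] V2}

/-- the linear action on the plane -/
noncomputable def Pl (hol : H →* (E ≃ᵃ[ℝ] E)) (e0 : V2 →ₗ[ℝ] E) (π : E →ₗ[ℝ] V2) (γ : H) :
    V2 →ₗ[ℝ] V2 := π ∘ₗ ((hol γ).linear : E →ₗ[ℝ] E) ∘ₗ e0

theorem Pq.lin (P : Pq B e0 π) (C : Cn hol B γm) (γ : H) (x : E) :
    π ((hol γ).linear x) = Pl hol e0 π γ (π x) := by
  have h1 : π (x - e0 (π x)) = 0 := by rw [map_sub, P.sec, sub_self]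
  have h2 := Fh_inv (C.hcomm γ) 1 ((P.ker _).1 h1)
  rw [rp_zero] at h2
  have h3 := (P.ker _).2 h2
  rw [map_sub, map_sub, sub_eq_zero] at h3
  exact h3

theorem Pq.aff (P : Pq B e0 π) (C : Cn hol B γm) (γ : H) (x : E) :
    π (hol γ x) = Pl hol e0 π γ (π x) + π (hol γ 0) := by
  rw [Pool.Agent.Helper63.Mk.aff_eq', map_add, P.lin C, add_comm]

theorem Pq.mul (P : Pq B e0 π) (C : Cn hol B γm) (γ δ : H) :
    Pl hol e0 π (γ * δ) = Pl hol e0 π γ ∘ₗ Pl hol e0 π δ := by
  apply LinearMap.ext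
  intro v
  have h1 : (hol (γ * δ)).linear (e0 v) = (hol γ).linear ((hol δ).linear (e0 v)) := by
    rw [map_mul]; rfl
  show π ((hol (γ * δ)).linear (e0 v)) = Pl hol e0 π γ (Pl hol e0 π δ v)
  rw [h1, P.lin C, P.lin C, P.sec]

/-- the matrices -/
noncomputable def Pq.D (P : Pq B e0 π) (C : Cn hol B γm) : H →* M2 where
  toFun γ := LinearMap.toMatrix' (Pl hol e0 π γ)
  map_one' := by
    have h1 : Pl hol e0 π 1 = LinearMap.id := by
      apply LinearMap.ext
      intro v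
      show π ((hol 1).linear (e0 v)) = v
      rw [map_one]
      exact P.sec v
    rw [h1, LinearMap.toMatrix'_id]
  map_mul' γ δ := by rw [P.mul C, LinearMap.toMatrix'_comp]

theorem Pq.D_mulVec (P : Pq B e0 π) (C : Cn hol B γm) (γ : H) (v : V2) :
    P.D C γ *ᵥ v = Pl hol e0 π γ v := by
  show LinearMap.toMatrix' (Pl hol e0 π γ) *ᵥ v = _
  rw [← Matrix.toLin'_apply, Matrix.toLin'_toMatrix']

theorem Pq.affD (P : Pq B e0 π) (C : Cn hol B γm) (γ : H) (x : E) :
    π (hol γ x) = P.D C γ *ᵥ (π x) + π (hol γ 0) := by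
  rw [P.aff C, P.D_mulVec]

theorem Pq.detD (P : Pq B e0 π) (C : Cn hol B γm)
    (hdet : ∀ γ, |LinearMap.det ((hol γ).linear : E →ₗ[ℝ] E)| = 1)
    (irr : ∀ U : Submodule ℝ V2, (∀ γ, ∀ u ∈ U, Pl hol e0 π γ u ∈ U) → U = ⊥ ∨ U = ⊤) (γ : H) :
    |(P.D C γ).det| = 1 := by
  have F : Lf B (rp hol) e0 (Pl hol e0 π) := by
    refine ⟨C.hB, C.hcomm, rp_snd hol, ?_, ?_, ?_, irr⟩
    · intro γ v
      rw [rp_zero]
      have h1 : (((hol γ).linear (e0 v), 0) : E × ℝ) - (e0 (Pl hol e0 π γ v), 0) =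
          ((hol γ).linear (e0 v) - e0 (Pl hol e0 π γ v), 0) := by
        refine Prod.ext rfl ?_
        exact sub_self _
      rw [h1, ← P.ker, map_sub, P.sec]
      exact sub_self _
    · intro x
      refine ⟨π x, ?_⟩
      have h1 : ((x, 0) : E × ℝ) - (e0 (π x), 0) = (x - e0 (π x), 0) := by
        refine Prod.ext rfl ?_
        exact sub_self _
      rw [h1, ← P.ker, map_sub, P.sec, sub_self]
    · intro v hv
      rw [← P.ker, P.sec] at hv
      exact hv
  have h1 := F.det_one C.hBc C.hn (fun γ => ((hol γ).linear : E →ₗ[ℝ] E)) (rp_zero hol) hdet γ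
  have h2 : (P.D C γ).det = LinearMap.det (Pl hol e0 π γ) := LinearMap.det_toMatrix' _
  rw [h2]
  exact h1

/-- the lattice -/
def lat (C : Cn hol B γm) : Subgroup H where
  carrier := range γm
  one_mem' := by
    refine ⟨0, ?_⟩
    have h := C.add 0 0
    rw [add_zero] at h
    exact left_eq_mul.1 h
  mul_mem' := by
    rintro _ _ ⟨m, rfl⟩ ⟨m', rfl⟩
    exact ⟨m + m', C.add m m'⟩
  inv_mem' := by
    rintro _ ⟨m, rfl⟩
    refine ⟨-m, ?_⟩
    have h0 : γm 0 = 1 := by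
      have h := C.add 0 0
      rw [add_zero] at h
      exact left_eq_mul.1 h
    have h := C.add (-m) m
    rw [neg_add_cancel, h0] at h
    exact eq_inv_of_mul_eq_one_left h.symm

theorem lat_normal (C : Cn hol B γm) : (lat C).Normal := by
  constructor
  rintro _ ⟨m, rfl⟩ γ
  refine ⟨m, ?_⟩
  rw [← C.cen, mul_inv_cancel_right]

theorem Cn.hol_eq (C : Cn hol B γm) (m : Fin k → ℤ) (x : E) :
    hol (γm m) x = flow B (fun i => (m i : ℝ)) x := by
  have h1 := rp_one hol (γm m) x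
  rw [C.hγ, flow_eq B C.hB] at h1
  exact (congrArg Prod.fst h1).symm

theorem Pq.flow_eq' (P : Pq B e0 π) (C : Cn hol B γm) (s : Fin k → ℝ) (x : E) :
    π (flow B s x) = π x := by
  have h1 := (P.ker _).2 (flow_mem C.hB s x)
  rwa [map_sub, sub_eq_zero] at h1

theorem Pq.lat_one (P : Pq B e0 π) (C : Cn hol B γm) (m : Fin k → ℤ) : P.D C (γm m) = 1 := by
  have h1 : ∀ v, P.D C (γm m) *ᵥ v = v := by
    intro v
    have a1 := P.affD C (γm m) (e0 v)
    have a0 := P.affD C (γm m) 0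
    rw [C.hol_eq, P.flow_eq' C, P.sec, C.hol_eq, P.flow_eq' C, map_zero, add_zero] at a1
    exact a1.symm
  apply Matrix.ext
  intro i j
  have h2 := congrFun (h1 (Pi.single j 1)) i
  rw [Matrix.mulVec_single_one] at h2
  rw [Matrix.one_apply]
  have h3 : P.D C (γm m) i j = (Pi.single j (1 : ℝ) : V2) i := h2
  rw [h3, Pi.single_apply]

theorem Pq.lat_zero (P : Pq B e0 π) (C : Cn hol B γm) (m : Fin k → ℤ) :
    π (hol (γm m) 0) = 0 := by
  rw [C.hol_eq, P.flow_eq' C, map_zero]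

/-- **The irreducible case.** -/
theorem irr_case [SecondCountableTopology X] [ConnectedSpace X] (A : AffData X H E dev hol)
    (hinj : Function.Injective dev) (C : Cn hol B γm) (P : Pq B e0 π)
    (hs : ∀ x : E, ∀ q ∈ Fh B 1, ∃ s, vecL B s (x, 1) = q)
    (irr : ∀ U : Submodule ℝ V2, (∀ γ, ∀ u ∈ U, Pl hol e0 π γ u ∈ U) → U = ⊥ ∨ U = ⊤) :
    IsHomeomorph dev := by
  have hdet := P.detD C A.unimod irr
  have hπc : Continuous π := π.continuous_of_finiteDimensional
  have hec : Continuous e0 := e0.continuous_of_finiteDimensional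
  have hflow := flow_pres A B C.hB C.hBc C.hcomm
  have hopen : IsOpen (range dev) := A.loc.isOpenMap.isOpen_range
  -- saturation
  have htr : ∀ x y : E, π x = π y → ∃ s, flow B s x = y := by
    intro x y h
    refine trans_flow C.hB C.hBc C.hn hs x y ?_
    rw [← P.ker, map_sub, h, sub_self]
  have hsat : ∀ x y : E, π x = π y → x ∈ range dev → y ∈ range dev := by
    intro x y h hx
    obtain ⟨s, rfl⟩ := htr x y h
    exact hflow s x hx
  set Ω : Set V2 := {v | e0 v ∈ range dev} with hΩ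
  have hmem : ∀ x, x ∈ range dev ↔ π x ∈ Ω := by
    intro x
    constructor
    · intro hx
      exact hsat x _ (by rw [P.sec]) hx
    · intro hx
      exact hsat (e0 (π x)) x (by rw [P.sec]) hx
  -- the quotient group
  set N := lat C with hN
  haveI : N.Normal := lat_normal C
  let Dq : H ⧸ N →* M2 := QuotientGroup.lift N (P.D C) (by
    rintro _ ⟨m, rfl⟩
    exact P.lat_one C m)
  have hDq : ∀ γ : H, Dq (γ : H ⧸ N) = P.D C γ := fun γ => rfl
  have hd : ∀ γ δ : H, π (hol (γ * δ) 0) = P.D C γ *ᵥ π (hol δ 0) + π (hol γ 0) := by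
    intro γ δ
    have h1 : hol (γ * δ) 0 = hol γ (hol δ 0) := by rw [map_mul]; rfl
    rw [h1, P.affD C]
  let dq : H ⧸ N → V2 := fun q => π (hol q.out 0)
  have hdq : ∀ γ : H, dq (γ : H ⧸ N) = π (hol γ 0) := by
    intro γ
    obtain ⟨⟨_, m, rfl⟩, hn⟩ := QuotientGroup.mk_out_eq_mul N γ
    show π (hol ((γ : H ⧸ N)).out 0) = _
    rw [hn]
    show π (hol (γ * γm m) 0) = _
    rw [hd, P.lat_zero C, Matrix.mulVec_zero, zero_add]
  have hact : ∀ (γ : H) (x : E), π (hol γ x) = Dq (γ : H ⧸ N) *ᵥ π x + dq (γ : H ⧸ N) := by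
    intro γ x
    rw [hDq, hdq]
    exact P.affD C γ x
  have S : Sk (W := Fin 0 → ℝ) Dq dq (fun _ => 0) (fun _ => 0) Ω := by
    refine ⟨?_, ?_, ?_, ?_, ?_, ?_, ?_, ?_⟩
    · intro q r
      obtain ⟨γ, rfl⟩ := QuotientGroup.mk_surjective q
      obtain ⟨δ, rfl⟩ := QuotientGroup.mk_surjective r
      rw [← QuotientGroup.mk_mul, hdq, hdq, hdq, hDq]
      exact hd γ δ
    · intro γ δ v
      simp
    · intro γ δ
      simp
    · exact hopen.preimage hec
    · have h1 : Ω = π '' range dev := by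
        ext v
        constructor
        · intro hv
          exact ⟨_, hv, P.sec v⟩
        · rintro ⟨x, hx, rfl⟩
          exact (hmem x).1 hx
      rw [h1]
      exact (isConnected_range A.loc.continuous).image _ hπc.continuousOn
    · intro q v hv
      obtain ⟨γ, rfl⟩ := QuotientGroup.mk_surjective q
      have h1 := (hmem _).1 (range_inv A γ _ hv)
      rw [hact, P.sec] at h1
      exact h1
    · intro K hK hKΩ R
      set Kt : Set E := (fun q : (Fin k → ℝ) × V2 => flow B q.1 (e0 q.2)) ''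
        (Icc (0 : Fin k → ℝ) 1 ×ˢ K) with hKt
      have hKtc : IsCompact Kt := by
        refine ((isCompact_Icc : IsCompact (Icc (0 : Fin k → ℝ) 1)).prod hK).image ?_
        exact (flow_cont B).comp (continuous_fst.prodMk (hec.comp continuous_snd))
      have hKtr : Kt ⊆ range dev := by
        rintro _ ⟨⟨s, v⟩, ⟨_, hv⟩, rfl⟩
        exact hflow s _ (hKΩ hv)
      have hfin := range_pd A hinj Kt hKtc hKtr
      refine (hfin.image (fun γ : H => (γ : H ⧸ N))).subset ?_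
      rintro q ⟨v, hv, hv', -⟩
      obtain ⟨γ, rfl⟩ := QuotientGroup.mk_surjective q
      set v' := Dq (γ : H ⧸ N) *ᵥ v + dq (γ : H ⧸ N) with hv'd
      obtain ⟨s, hs'⟩ := htr (e0 v') (hol γ (e0 v)) (by rw [P.sec, hact, P.sec])
      refine ⟨γm (fun i => -⌊s i⌋) * γ, ⟨e0 v, ⟨(0, v), ⟨⟨le_rfl, zero_le_one⟩, hv⟩, ?_⟩,
        ⟨(fun i => Int.fract (s i), v'), ⟨⟨fun i => Int.fract_nonneg _,
          fun i => (Int.fract_lt_one _).le⟩, hv'⟩, ?_⟩⟩, ?_⟩
      · exact flow_zero B _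
      · show flow B (fun i => Int.fract (s i)) (e0 v') = hol (γm (fun i => -⌊s i⌋) * γ) (e0 v)
        have h1 : hol (γm (fun i => -⌊s i⌋) * γ) (e0 v) = hol (γm fun i => -⌊s i⌋) (hol γ (e0 v)) := by
          rw [map_mul]; rfl
        rw [h1, C.hol_eq, ← hs', ← flow_add B C.hB C.hBc]
        congr 1
        funext i
        show Int.fract (s i) = ((-⌊s i⌋ : ℤ) : ℝ) + s i
        push_cast
        have := Int.fract_add_floor (s i)
        linarith
      · show ((γm (fun i => -⌊s i⌋) * γ : H) : H ⧸ N) = (γ : H ⧸ N)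
        rw [C.cen, QuotientGroup.eq]
        have h1 : (γ * γm fun i => -⌊s i⌋)⁻¹ * γ = (γm fun i => -⌊s i⌋)⁻¹ := by
          rw [mul_inv_rev, mul_assoc, inv_mul_cancel, mul_one]
        rw [h1]
        exact N.inv_mem ⟨_, rfl⟩
    · obtain ⟨C0, hC0, hC0r, hcc⟩ := range_cc A
      refine ⟨π '' C0, hC0.image hπc, ?_, 0, ?_⟩
      · rintro _ ⟨x, hx, rfl⟩
        exact (hmem x).1 (hC0r hx)
      · intro v hv w
        obtain ⟨γ, c, hc, h1⟩ := hcc (e0 v) hv
        have h2 : hol γ⁻¹ (e0 v) = c := by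
          rw [← h1]
          have h3 : hol γ⁻¹ (hol γ c) = hol (γ⁻¹ * γ) c := by
            rw [map_mul]; rfl
          rw [h3, inv_mul_cancel, map_one]
          rfl
        refine ⟨((γ⁻¹ : H) : H ⧸ N), ⟨c, hc, ?_⟩, ?_⟩
        · rw [← h2, hact, P.sec]
        · have h3 : w + ((0 : V2 →ₗ[ℝ] (Fin 0 → ℝ)) v + 0) = 0 := Subsingleton.elim _ _
          rw [h3, norm_zero]
  have hΩu : Ω = univ := by
    refine S.compl (fun q => ?_) 0 (fun q v => ?_)
    · obtain ⟨γ, rfl⟩ := QuotientGroup.mk_surjective q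
      rw [hDq]
      exact hdet γ
    · simp
  refine ⟨A.loc.continuous, A.loc.isOpenMap, hinj, fun x => ?_⟩
  have h1 : π x ∈ Ω := by rw [hΩu]; trivial
  exact (hmem x).2 h1

end

end Pool.Agent.Helper63.Ce
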