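import Pool.Agent.Helper63.SV.Flw
import Pool.Agent.Helper63.Ce.Blk

/-!
Project Ce (helper63): the filtration given by commuting nilpotent operators.
-/

set_option autoImplicit false

open Set Filter Topology NormedSpace

namespace Pool.Agent.Helper63.Ce

open Pool.Agent.Helper63.SV (rep vecL flow hatL)

section fl
variable {E : Type} [NormedAddCommGroup E] [NormedSpace ℝ E] {k : ℕ}

/-- the filtration -/
def Fh (B : Fin k → ((E × ℝ) →L[ℝ] (E × ℝ))) : ℕ → Submodule ℝ (E × ℝ)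
  | 0 => ⊤
  | j + 1 => ⨆ i, (Fh B j).map (B i : (E × ℝ) →ₗ[ℝ] (E × ℝ))

/-- the words -/
def Wd (B : Fin k → ((E × ℝ) →L[ℝ] (E × ℝ))) : ℕ → Set ((E × ℝ) →L[ℝ] (E × ℝ))
  | 0 => {1}
  | j + 1 => {w | ∃ i, ∃ w' ∈ Wd B j, w = B i * w'}

variable {B : Fin k → ((E × ℝ) →L[ℝ] (E × ℝ))}

theorem Fh_le {j : ℕ} : ∀ {T : Submodule ℝ (E × ℝ)}, (∀ w ∈ Wd B j, ∀ p, w p ∈ T) →
    Fh B j ≤ T := by
  induction j with
  | zero =>
    intro T h p _
    exact h 1 rfl p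
  | succ j ih =>
    intro T h
    refine iSup_le fun i => ?_
    rw [Submodule.map_le_iff_le_comap]
    exact ih fun w hw p => h (B i * w) ⟨i, w, hw, rfl⟩ p

theorem map_Fh {j : ℕ} (i : Fin k) {p : E × ℝ} (hp : p ∈ Fh B j) : B i p ∈ Fh B (j + 1) :=
  Submodule.mem_iSup_of_mem i ⟨p, hp, rfl⟩

theorem Wd_Fh {j l : ℕ} : ∀ {w}, w ∈ Wd B j → ∀ {p}, p ∈ Fh B l → w p ∈ Fh B (j + l) := by
  induction j with
  | zero =>
    intro w hw p hp
    have hw1 : w = 1 := hw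
    rw [hw1, Nat.zero_add]
    exact hp
  | succ j ih =>
    rintro w ⟨i, w', hw', rfl⟩ p hp
    rw [Nat.succ_add]
    exact map_Fh i (ih hw' hp)

theorem Wd_mem {j : ℕ} {w} (hw : w ∈ Wd B j) (p : E × ℝ) : w p ∈ Fh B j :=
  Wd_Fh (l := 0) hw (p := p) trivial

theorem Fh_anti {j : ℕ} : Fh B (j + 1) ≤ Fh B j := by
  induction j with
  | zero => exact le_top
  | succ j ih =>
    refine iSup_le fun i => ?_
    rintro _ ⟨p, hp, rfl⟩
    exact map_Fh i (ih hp)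

theorem Fh_mono {j l : ℕ} (h : j ≤ l) : Fh B l ≤ Fh B j := by
  induction l with
  | zero =>
    have : j = 0 := by omega
    rw [this]
  | succ l ih =>
    rcases Nat.lt_or_ge l j with h1 | h1
    · have : j = l + 1 := by omega
      rw [this]
    · exact Fh_anti.trans (ih h1)

theorem Fh_snd (hB : ∀ i p, (B i p).2 = 0) {j : ℕ} (hj : 1 ≤ j) {p : E × ℝ} (hp : p ∈ Fh B j) :
    p.2 = 0 := by
  have h1 : p ∈ Fh B 1 := Fh_mono hj hp
  have h2 : Fh B 1 ≤ LinearMap.ker (LinearMap.snd ℝ E ℝ) := by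
    refine iSup_le fun i => ?_
    rintro _ ⟨q, _, rfl⟩
    exact hB i q
  exact h2 h1

theorem Wd_comm {g : (E × ℝ) →L[ℝ] (E × ℝ)} (hg : ∀ i, Commute g (B i)) {j : ℕ} :
    ∀ {w}, w ∈ Wd B j → Commute g w := by
  induction j with
  | zero =>
    intro w hw
    have hw1 : w = 1 := hw
    rw [hw1]
    exact Commute.one_right _
  | succ j ih =>
    rintro w ⟨i, w', hw', rfl⟩
    exact (hg i).mul_right (ih hw')

theorem vecL_Fh (s : Fin k → ℝ) {j : ℕ} {p : E × ℝ} (hp : p ∈ Fh B j) :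
    vecL B s p ∈ Fh B (j + 1) := by
  rw [SV.vecL_apply, sum_apply]
  exact Submodule.sum_mem _ fun i _ => Submodule.smul_mem _ _ (map_Fh i hp)

/-- invariance -/
theorem Fh_inv {g : (E × ℝ) →L[ℝ] (E × ℝ)} (hg : ∀ i, Commute g (B i)) (j : ℕ) {p : E × ℝ}
    (hp : p ∈ Fh B j) : g p ∈ Fh B j := by
  have h1 : Fh B j ≤ (Fh B j).comap (g : (E × ℝ) →ₗ[ℝ] (E × ℝ)) := by
    refine Fh_le fun w hw q => ?_
    show g (w q) ∈ Fh B j
    have h2 : g (w q) = w (g q) := congrArg (fun T : (E × ℝ) →L[ℝ] (E × ℝ) => T q) (Wd_comm hg hw).eq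
    rw [h2]
    exact Wd_mem hw _
  exact h1 hp

/-- operators which move little -/
theorem Fh_move {g : (E × ℝ) →L[ℝ] (E × ℝ)} (hg : ∀ i, Commute g (B i)) {j : ℕ}
    (h : ∀ p, g p - p ∈ Fh B j) (l : ℕ) {p : E × ℝ} (hp : p ∈ Fh B l) :
    g p - p ∈ Fh B (l + j) := by
  have h1 : Fh B l ≤ (Fh B (l + j)).comap ((g : (E × ℝ) →ₗ[ℝ] (E × ℝ)) - LinearMap.id) := by
    refine Fh_le fun w hw q => ?_
    show g (w q) - w q ∈ Fh B (l + j)
    have h2 : g (w q) = w (g q) := congrArg (fun T : (E × ℝ) →L[ℝ] (E × ℝ) => T q) (Wd_comm hg hw).eq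
    rw [h2, ← map_sub]
    exact Wd_Fh hw (h q)
  exact h1 hp

/-- the filtration ends -/
theorem Fh_nil [FiniteDimensional ℝ E] (hBc : ∀ i j, Commute (B i) (B j))
    (hn : ∀ i, IsNilpotent (B i)) : ∃ m, 1 ≤ m ∧ Fh B m = ⊥ := by
  have hc : ∀ a ∈ range B, ∀ b ∈ range B, a * b = b * a := by
    rintro _ ⟨i, rfl⟩ _ ⟨j, rfl⟩
    exact hBc i j
  letI : CommRing (Algebra.adjoin ℝ (range B)) := Algebra.adjoinCommRingOfComm ℝ hc
  let b : Fin k → Algebra.adjoin ℝ (range B) := fun i => ⟨B i, Algebra.subset_adjoin ⟨i, rfl⟩⟩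
  let I : Ideal (Algebra.adjoin ℝ (range B)) := Ideal.span (range b)
  have hI : I.FG := ⟨Set.Finite.toFinset (finite_range b), by rw [Set.Finite.coe_toFinset]⟩
  have hle : I ≤ nilradical _ := by
    rw [Ideal.span_le]
    rintro _ ⟨i, rfl⟩
    show b i ∈ nilradical _
    rw [mem_nilradical]
    obtain ⟨n, h⟩ := hn i
    exact ⟨n, Subtype.ext h⟩
  obtain ⟨m, hm⟩ := (hI.isNilpotent_iff_le_nilradical).2 hle
  have key : ∀ j, ∀ w ∈ Wd B j, ∃ x ∈ I ^ j, (x : (E × ℝ) →L[ℝ] (E × ℝ)) = w := by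
    intro j
    induction j with
    | zero =>
      intro w hw
      have hw1 : w = 1 := hw
      refine ⟨1, by simp, ?_⟩
      rw [hw1]
      rfl
    | succ j ih =>
      rintro w ⟨i, w', hw', rfl⟩
      obtain ⟨x, hx, hxw⟩ := ih w' hw'
      refine ⟨b i * x, ?_, ?_⟩
      · rw [pow_succ']
        exact Ideal.mul_mem_mul (Ideal.subset_span ⟨i, rfl⟩) hx
      · rw [← hxw]
        rfl
  refine ⟨m + 1, by omega, ?_⟩
  rw [eq_bot_iff]
  refine Fh_le fun w hw p => ?_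
  obtain ⟨x, hx, rfl⟩ := key _ w hw
  have h0 : I ^ (m + 1) = ⊥ := by
    rw [pow_succ, hm]
    simp
  rw [h0, Ideal.mem_bot] at hx
  rw [hx]
  exact Submodule.zero_mem _

end fl

end Pool.Agent.Helper63.Ce
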