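import Pool.Agent.Helper63.Ce.Fl

/-!
Project Ce (helper63): solvability.
-/

set_option autoImplicit false

open Set Filter Topology NormedSpace
open scoped commutatorElement

namespace Pool.Agent.Helper63.Ce

open Pool.Agent.Helper63.SV (rep vecL flow hatL)

section sv
variable {E H : Type} [NormedAddCommGroup E] [NormedSpace ℝ E] {k : ℕ} [Group H]
  {B : Fin k → ((E × ℝ) →L[ℝ] (E × ℝ))}

/-- the elements which move little -/
def Qs (ρ : H →* ((E × ℝ) →L[ℝ] (E × ℝ))) (_ : ∀ γ i, Commute (ρ γ) (B i)) (j : ℕ) :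
    Subgroup H where
  carrier := {γ | ∀ p, ρ γ p - p ∈ Fh B j}
  one_mem' := by
    intro p
    rw [map_one]
    show p - p ∈ _
    rw [sub_self]
    exact Submodule.zero_mem _
  mul_mem' := by
    intro γ δ hγ hδ p
    rw [map_mul]
    show ρ γ (ρ δ p) - p ∈ _
    have h1 : ρ γ (ρ δ p) - p = (ρ γ (ρ δ p) - ρ δ p) + (ρ δ p - p) := by abel
    rw [h1]
    exact Submodule.add_mem _ (hγ _) (hδ _)
  inv_mem' := by
    intro γ hγ p
    have h1 : ρ γ (ρ γ⁻¹ p) = p := by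
      show (ρ γ * ρ γ⁻¹) p = p
      rw [← map_mul, mul_inv_cancel, map_one]
      rfl
    have h2 : ρ γ⁻¹ p - p = -(ρ γ (ρ γ⁻¹ p) - ρ γ⁻¹ p) := by rw [h1]; abel
    rw [h2]
    exact Submodule.neg_mem _ (hγ _)

theorem mem_Qs {ρ : H →* ((E × ℝ) →L[ℝ] (E × ℝ))} {hρ : ∀ γ i, Commute (ρ γ) (B i)} {j : ℕ}
    {γ : H} : γ ∈ Qs ρ hρ j ↔ ∀ p, ρ γ p - p ∈ Fh B j := Iff.rfl

theorem comm_mem {ρ : H →* ((E × ℝ) →L[ℝ] (E × ℝ))} {hρ : ∀ γ i, Commute (ρ γ) (B i)} {j : ℕ}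
    {g h : H} (hgh : ∀ q, ρ g (ρ h q) - ρ h (ρ g q) ∈ Fh B j) : ⁅g, h⁆ ∈ Qs ρ hρ j := by
  intro p
  have h1 : ⁅g, h⁆ = (g * h) * (h * g)⁻¹ := by
    rw [commutatorElement_def]
    group
  set q := ρ (h * g)⁻¹ p with hq
  have h2 : p = ρ h (ρ g q) := by
    show p = (ρ h * ρ g) q
    rw [← map_mul, hq]
    show p = (ρ (h * g) * ρ (h * g)⁻¹) p
    rw [← map_mul, mul_inv_cancel, map_one]
    rfl
  have h3 : ρ ⁅g, h⁆ p = ρ g (ρ h q) := by
    rw [h1, map_mul, map_mul]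
    rfl
  have h4 : ρ ⁅g, h⁆ p - p = ρ g (ρ h q) - ρ h (ρ g q) := by rw [h3, ← h2]
  show ρ ⁅g, h⁆ p - p ∈ _
  rw [h4]
  exact hgh q

theorem comm_diff (ρ : H →* ((E × ℝ) →L[ℝ] (E × ℝ))) (g h : H) (q : E × ℝ) :
    ρ g (ρ h q) - ρ h (ρ g q) = (ρ g (ρ h q - q) - (ρ h q - q)) -
      (ρ h (ρ g q - q) - (ρ g q - q)) := by
  rw [map_sub, map_sub]
  abel

theorem ders (ρ : H →* ((E × ℝ) →L[ℝ] (E × ℝ))) (hρ : ∀ γ i, Commute (ρ γ) (B i))
    (hρ2 : ∀ γ p, (ρ γ p).2 = p.2) (a : ℕ)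
    (h : ∀ γ ∈ derivedSeries H a, ∀ v : E, ρ γ (v, 0) - (v, 0) ∈ Fh B 1) :
    ∀ i, derivedSeries H (a + 1 + i) ≤ Qs ρ hρ (i + 1) := by
  intro i
  induction i with
  | zero =>
    rw [Nat.add_zero, derivedSeries_succ, Subgroup.commutator_le]
    intro g hg h' hh
    refine comm_mem fun q => ?_
    rw [comm_diff]
    have e1 : ∀ γ, ρ γ q - q = ((ρ γ q - q).1, 0) := by
      intro γ
      refine Prod.ext rfl ?_
      show (ρ γ q).2 - q.2 = 0
      rw [hρ2, sub_self]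
    refine Submodule.sub_mem _ ?_ ?_
    · rw [e1 h']
      exact h g hg _
    · rw [e1 g]
      exact h h' hh _
  | succ i ih =>
    rw [← Nat.add_assoc, derivedSeries_succ]
    refine (Subgroup.commutator_mono ih ih).trans ?_
    rw [Subgroup.commutator_le]
    intro g hg h' hh
    refine comm_mem fun q => ?_
    rw [comm_diff]
    refine Submodule.sub_mem _ ?_ ?_
    · exact Fh_mono (by omega) (Fh_move (hρ g) hg (i + 1) (hh q))
    · exact Fh_mono (by omega) (Fh_move (hρ h') hh (i + 1) (hg q))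

/-- solvable images -/
theorem solv_map {M : Type} [Group M] (f : H →* M) (n : ℕ) (h : ∀ γ ∈ derivedSeries H n, f γ = 1) :
    Group.IsSolvable ((⊤ : Subgroup H).map f) := by
  have h1 : (derivedSeries f.range n) = ⊥ := by
    rw [← map_derivedSeries_eq f.rangeRestrict_surjective n, eq_bot_iff]
    rintro _ ⟨γ, hγ, rfl⟩
    rw [Subgroup.mem_bot]
    exact Subtype.ext (h γ hγ)
  have h2 : Group.IsSolvable f.range := ⟨⟨n, h1⟩⟩
  rw [← MonoidHom.range_eq_map]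
  exact h2

end sv

end Pool.Agent.Helper63.Ce
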