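import Pool.Agent.Helper63.SV.Cen
import Pool.Agent.Helper63.Ce.Dt
import Pool.Agent.Helper63.Ce.Sv
import Pool.Graph.R_pool_sql_team_seeded_64922ed1.Results.MP_df2bd8_gt.CommensuratedSubgroups
import Pool.Graph.R_seed8.TH94.MK.Main

/-!
Project Ce (helper63): central elements of the fundamental group of a closed affine manifold.
-/

set_option autoImplicit false

open Set Filter Topology NormedSpace MeasureTheory

namespace Pool.Agent.Helper63.Ce

open Pool.Agent.Helper63.SV (rep vecL flow hatL hatL_apply hatL_snd al_ext exp_snd flow_eq flow_add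
  flow_zero flow_cont flow_pres_of_nhds exp_fix vecL_apply vecL_snd vecL_comm exists_logs key_lat)
open Pool.Agent.W689.Mk Pool.Agent.TH94.MK

section
variable {H E : Type} [NormedAddCommGroup E] [NormedSpace ℝ E] [Group H]

/-- the holonomy by affine maps -/
noncomputable def ah (hol : H →* (E ≃ᵃ[ℝ] E)) : H →* (E →ᵃ[ℝ] E) :=
  (Units.coeHom _).comp ((AffineEquiv.equivUnitsAffineMap).toMonoidHom.comp hol)

theorem ah_apply (hol : H →* (E ≃ᵃ[ℝ] E)) (γ : H) (v : E) : ah hol γ v = hol γ v := rfl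

variable [FiniteDimensional ℝ E]

/-- the linear representation -/
noncomputable abbrev rp (hol : H →* (E ≃ᵃ[ℝ] E)) : H →* ((E × ℝ) →L[ℝ] (E × ℝ)) := rep (ah hol)

theorem rp_one (hol : H →* (E ≃ᵃ[ℝ] E)) (γ : H) (v : E) : rp hol γ (v, 1) = (hol γ v, 1) :=
  hatL_apply _ _

theorem rp_snd (hol : H →* (E ≃ᵃ[ℝ] E)) (γ : H) (p : E × ℝ) : (rp hol γ p).2 = p.2 :=
  hatL_snd _ _

theorem rp_zero (hol : H →* (E ≃ᵃ[ℝ] E)) (γ : H) (v : E) :
    rp hol γ (v, 0) = ((hol γ).linear v, 0) := by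
  show ((ah hol γ).linear v + (0 : ℝ) • ah hol γ 0, (0 : ℝ)) = _
  rw [zero_smul, add_zero]
  rfl

end

section
variable {X H E : Type} [NormedAddCommGroup E] [NormedSpace ℝ E] [FiniteDimensional ℝ E]
  [TopologicalSpace X] [T2Space X] [Group H] [MulAction H X]
  {dev : X → E} {hol : H →* (E ≃ᵃ[ℝ] E)} {k : ℕ}

/-- a flow which commutes with the group preserves the domain -/
theorem flow_pres (A : AffData X H E dev hol)
    (B : Fin k → ((E × ℝ) →L[ℝ] (E × ℝ))) (hB : ∀ i p, (B i p).2 = 0)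
    (hBc : ∀ i j, Commute (B i) (B j)) (hcomm : ∀ (γ : H) i, Commute (rp hol γ) (B i)) :
    ∀ s, ∀ v ∈ range dev, flow B s v ∈ range dev := by
  apply flow_pres_of_nhds B hB hBc
  obtain ⟨K, hK, hKr, hc⟩ := range_cc A
  have hopen : IsOpen (range dev) := A.loc.isOpenMap.isOpen_range
  have h1 : ∀ᶠ s in 𝓝 (0 : Fin k → ℝ), ∀ v ∈ K, flow B s v ∈ range dev := by
    apply hK.eventually_forall_of_forall_eventually
    intro v hv
    have h2 := (flow_cont B).tendsto ((0 : Fin k → ℝ), v)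
    have h3 : range dev ∈ 𝓝 (flow B 0 v) := by
      rw [flow_zero]
      exact hopen.mem_nhds (hKr hv)
    exact h2 h3
  filter_upwards [h1] with s hs
  intro v hv
  obtain ⟨γ, c, hc, rfl⟩ := hc v hv
  have h2 : Commute (rp hol γ) (exp (vecL B s)) := by
    let := NormedAlgebra.restrictScalars ℚ ℝ ((E × ℝ) →L[ℝ] (E × ℝ))
    apply Commute.exp_right
    rw [vecL_apply]
    exact Commute.sum_right _ _ _ fun i _ => (hcomm γ i).smul_right _
  have h3 : rp hol γ (exp (vecL B s) (c, 1)) = exp (vecL B s) (rp hol γ (c, 1)) :=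
    congrArg (fun T : (E × ℝ) →L[ℝ] (E × ℝ) => T (c, 1)) h2.eq
  rw [flow_eq B hB, rp_one, rp_one, flow_eq B hB] at h3
  have h4 : hol γ (flow B s c) = flow B s (hol γ c) := congrArg Prod.fst h3
  rw [← h4]
  exact range_inv A γ _ (hs c hc)

/-- freeness of the flow at the points of the domain -/
theorem ind_dom (A : AffData X H E dev hol) (hinj : Function.Injective dev)
    (B : Fin k → ((E × ℝ) →L[ℝ] (E × ℝ))) (hB : ∀ i p, (B i p).2 = 0)
    (hBc : ∀ i j, Commute (B i) (B j))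
    (hX : ∀ s, ∀ v ∈ range dev, flow B s v ∈ range dev) (γ : (Fin k → ℤ) → H)
    (hγ : ∀ m, rp hol (γ m) = exp (vecL B fun i => (m i : ℝ))) (hi : Function.Injective γ)
    (x : E) (hx : x ∈ range dev) (s : Fin k → ℝ) (hs : vecL B s (x, 1) = 0) : s = 0 := by
  by_contra hs0
  obtain ⟨i₀, hi₀⟩ : ∃ i, s i ≠ 0 := by
    by_contra hcon
    push Not at hcon
    exact hs0 (funext hcon)
  set Q : Set E := (fun r : Fin k → ℝ => flow B (-r) x) '' Icc (0 : Fin k → ℝ) 1 with hQ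
  have hQc : IsCompact Q := by
    refine (isCompact_Icc : IsCompact (Icc (0 : Fin k → ℝ) 1)).image ?_
    exact (flow_cont B).comp (continuous_neg.prodMk continuous_const)
  have hQr : Q ∪ {x} ⊆ range dev := by
    rintro v (⟨r, _, rfl⟩ | hv)
    · exact hX _ _ hx
    · rw [mem_singleton_iff] at hv
      rw [hv]
      exact hx
  have hfin := range_pd A hinj (Q ∪ {x}) (hQc.union isCompact_singleton) hQr
  -- multiples of `s` do not move `x`
  have hfix : ∀ t : ℝ, flow B (t • s) x = x := by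
    intro t
    show (exp (vecL B (t • s)) (x, 1)).1 = x
    rw [exp_fix]
    rw [map_smul]
    show t • vecL B s (x, 1) = 0
    rw [hs, smul_zero]
  have hmem : ∀ t : ℕ, γ (fun i => ⌊(t : ℝ) * s i⌋) ∈
      {γ : H | ∃ c ∈ Q ∪ {x}, hol γ c ∈ Q ∪ {x}} := by
    intro t
    refine ⟨x, Or.inr rfl, Or.inl ⟨fun i => Int.fract ((t : ℝ) * s i),
      ⟨fun i => Int.fract_nonneg _, fun i => (Int.fract_lt_one _).le⟩, ?_⟩⟩
    have h1 := hγ fun i => ⌊(t : ℝ) * s i⌋
    have h2 := rp_one hol (γ fun i => ⌊(t : ℝ) * s i⌋) x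
    rw [h1, flow_eq B hB] at h2
    have h3 : (fun i => ((⌊(t : ℝ) * s i⌋ : ℤ) : ℝ)) =
        -(fun i => Int.fract ((t : ℝ) * s i)) + (t : ℝ) • s := by
      funext i
      show ((⌊(t : ℝ) * s i⌋ : ℤ) : ℝ) = -(Int.fract ((t : ℝ) * s i)) + (t : ℝ) * s i
      have := Int.fract_add_floor ((t : ℝ) * s i)
      linarith
    rw [h3, flow_add B hB hBc, hfix] at h2
    exact congrArg Prod.fst h2
  -- finitely many integral vectors
  have hfin2 : (range fun t : ℕ => ⌊(t : ℝ) * s i₀⌋).Finite := by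
    have h1 : (range fun t : ℕ => fun i => ⌊(t : ℝ) * s i⌋).Finite := by
      refine Set.Finite.of_finite_image (f := γ) (hfin.subset ?_) ?_
      · rintro _ ⟨_, ⟨t, rfl⟩, rfl⟩
        exact hmem t
      · intro m _ m' _ h
        exact hi h
    refine (h1.image fun m => m i₀).subset ?_
    rintro _ ⟨t, rfl⟩
    exact ⟨_, ⟨t, rfl⟩, rfl⟩
  obtain ⟨b, hb⟩ := hfin2.bddAbove
  obtain ⟨b', hb'⟩ := hfin2.bddBelow
  rcases lt_or_gt_of_ne hi₀ with h | h
  · obtain ⟨t, ht⟩ := exists_nat_gt ((b' : ℝ) / s i₀)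
    rw [div_lt_iff_of_neg h] at ht
    have h1 : b' ≤ ⌊(t : ℝ) * s i₀⌋ := hb' ⟨t, rfl⟩
    have h2 := Int.le_floor.1 h1
    linarith
  · obtain ⟨t, ht⟩ := exists_nat_gt (((b : ℝ) + 1) / s i₀)
    rw [div_lt_iff₀ h] at ht
    have h1 : ⌊(t : ℝ) * s i₀⌋ ≤ b := hb ⟨t, rfl⟩
    have h2 := Int.lt_floor_add_one ((t : ℝ) * s i₀)
    have h3 : ((⌊(t : ℝ) * s i₀⌋ : ℤ) : ℝ) ≤ (b : ℝ) := by exact_mod_cast h1
    linarith

/-- freeness of the flow at all points -/
theorem ind_all [SecondCountableTopology X] [ConnectedSpace X] (A : AffData X H E dev hol)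
    (hinj : Function.Injective dev)
    (B : Fin k → ((E × ℝ) →L[ℝ] (E × ℝ))) (hB : ∀ i p, (B i p).2 = 0)
    (hBc : ∀ i j, Commute (B i) (B j)) (hcomm : ∀ (γ : H) i, Commute (rp hol γ) (B i))
    (γ : (Fin k → ℤ) → H)
    (hγ : ∀ m, rp hol (γ m) = exp (vecL B fun i => (m i : ℝ))) (hi : Function.Injective γ)
    (x : E) (s : Fin k → ℝ) (hs : vecL B s (x, 1) = 0) : s = 0 := by
  have h1 : {y : E | vecL B s (y, 1) = 0} = univ := by
    refine star_univ A (p := x) hs ?_ ?_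
    · intro y hy a b ha hb hab
      show vecL B s (a • x + b • y, 1) = 0
      have h2 : ((a • x + b • y, (1 : ℝ)) : E × ℝ) = a • (x, 1) + b • (y, 1) := by
        refine Prod.ext rfl ?_
        show (1 : ℝ) = a • (1 : ℝ) + b • (1 : ℝ)
        rw [smul_eq_mul, smul_eq_mul, mul_one, mul_one, hab]
      have hy' : vecL B s (y, 1) = 0 := hy
      rw [h2, map_add, map_smul, map_smul, hs, hy', smul_zero, smul_zero, add_zero]
    · intro δ y hy
      have hy' : vecL B s (y, 1) = 0 := hy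
      show vecL B s (hol δ y, 1) = 0
      have h2 : Commute (rp hol δ) (vecL B s) := by
        rw [vecL_apply]
        exact Commute.sum_right _ _ _ fun i _ => (hcomm δ i).smul_right _
      have h3 : rp hol δ (vecL B s (y, 1)) = vecL B s (rp hol δ (y, 1)) :=
        congrArg (fun T : (E × ℝ) →L[ℝ] (E × ℝ) => T (y, 1)) h2.eq
      rw [rp_one, hy', map_zero] at h3
      exact h3.symm
  obtain ⟨z⟩ : Nonempty X := inferInstance
  refine ind_dom A hinj B hB hBc (flow_pres A B hB hBc hcomm) γ hγ hi (dev z) ⟨z, rfl⟩ s ?_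
  have h2 : dev z ∈ {y : E | vecL B s (y, 1) = 0} := by rw [h1]; trivial
  exact h2

/-- unipotent affine maps -/
theorem nil_of_unip {a : H}
    (h : Pool.Agent.Results.MP_df2bd8_gt.CommensuratedSubgroups.Unipotent hol a) :
    IsNilpotent (rp hol a - 1) := by
  obtain ⟨n, hn⟩ := h
  refine ⟨n + 1, ?_⟩
  have h1 : ∀ j : ℕ, ∀ u : E, ((rp hol a - 1) ^ j) (u, 0) =
      (((((hol a).linear : E →ₗ[ℝ] E) - LinearMap.id : Module.End ℝ E) ^ j) u, 0) := by
    intro j
    induction j with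
    | zero => intro u; rfl
    | succ j ih =>
      intro u
      rw [pow_succ, pow_succ]
      show ((rp hol a - 1) ^ j) (rp hol a (u, 0) - (u, 0)) = _
      rw [rp_zero]
      have h2 : (((hol a).linear u, (0 : ℝ)) : E × ℝ) - (u, 0) = ((hol a).linear u - u, 0) := by
        refine Prod.ext rfl ?_
        exact sub_zero _
      rw [h2, ih]
      rfl
  refine al_ext _ _ fun v => ?_
  rw [pow_succ]
  show ((rp hol a - 1) ^ n) (rp hol a (v, 1) - (v, 1)) = 0
  have h2 : rp hol a (v, 1) - (v, 1) = (hol a v - v, 0) := by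
    rw [rp_one]
    refine Prod.ext rfl ?_
    exact sub_self _
  rw [h2, h1, hn]
  rfl

/-- operators in the algebra of commuting unipotent maps -/
theorem nil_of_adjoin (S : Set ((E × ℝ) →L[ℝ] (E × ℝ))) (hS : ∀ a ∈ S, ∀ b ∈ S, a * b = b * a)
    (hn : ∀ a ∈ S, IsNilpotent (a - 1)) {T : (E × ℝ) →L[ℝ] (E × ℝ)}
    (hT : T ∈ Algebra.adjoin ℝ S) (hT2 : ∀ p, (T p).2 = 0) : IsNilpotent T := by
  have hc : ∀ x ∈ Algebra.adjoin ℝ S, ∀ y ∈ Algebra.adjoin ℝ S, Commute x y := by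
    intro x hx y hy
    refine Algebra.commute_of_mem_adjoin_of_forall_mem_commute (R := ℝ) hy fun b hb => ?_
    refine (Algebra.commute_of_mem_adjoin_of_forall_mem_commute (R := ℝ) hx fun c hc => ?_).symm
    exact hS b hb c hc
  have key : ∀ T ∈ Algebra.adjoin ℝ S,
      ∃ c : ℝ, IsNilpotent (T - c • (1 : (E × ℝ) →L[ℝ] (E × ℝ))) := by
    intro T hT
    have hcc : ∀ x ∈ Algebra.adjoin ℝ S, ∀ y ∈ Algebra.adjoin ℝ S, ∀ c d : ℝ,
        Commute (x - c • (1 : (E × ℝ) →L[ℝ] (E × ℝ))) (y - d • 1) := by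
      intro x hx y hy c d
      refine Commute.sub_left ?_ ?_
      · refine Commute.sub_right (hc x hx y hy) ?_
        exact (Commute.one_right x).smul_right d
      · exact (Commute.one_left _).smul_left c
    induction hT using Algebra.adjoin_induction with
    | mem x hx => exact ⟨1, by rw [one_smul]; exact hn x hx⟩
    | algebraMap r =>
      refine ⟨r, ?_⟩
      rw [Algebra.algebraMap_eq_smul_one, sub_self]
      exact IsNilpotent.zero
    | add x y hx hy ihx ihy =>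
      obtain ⟨c, h1⟩ := ihx
      obtain ⟨d, h2⟩ := ihy
      refine ⟨c + d, ?_⟩
      have e : x + y - (c + d) • (1 : (E × ℝ) →L[ℝ] (E × ℝ)) = (x - c • 1) + (y - d • 1) := by
        rw [add_smul]; abel
      rw [e]
      exact (hcc x hx y hy c d).isNilpotent_add h1 h2
    | mul x y hx hy ihx ihy =>
      obtain ⟨c, h1⟩ := ihx
      obtain ⟨d, h2⟩ := ihy
      refine ⟨c * d, ?_⟩
      have e : x * y - (c * d) • (1 : (E × ℝ) →L[ℝ] (E × ℝ)) = (x - c • 1) * y + c • (y - d • 1) := by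
        rw [sub_mul, smul_mul_assoc, one_mul, smul_sub, smul_smul]; abel
      rw [e]
      have h3 := hcc x hx y hy c 0
      rw [zero_smul, sub_zero] at h3
      refine Commute.isNilpotent_add ?_ (h3.isNilpotent_mul_right h1) (h2.smul c)
      refine ((hcc x hx y hy c d).mul_left ?_).smul_right c
      have h4 := hcc y hy y hy 0 d
      rwa [zero_smul, sub_zero] at h4
  obtain ⟨c, n, hcn⟩ := key T hT
  have h1 : ∀ j : ℕ, ∀ p : E × ℝ, (((T - c • (1 : (E × ℝ) →L[ℝ] (E × ℝ))) ^ j) p).2 =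
      (-c) ^ j * p.2 := by
    intro j
    induction j with
    | zero => intro p; simp
    | succ j ih =>
      intro p
      rw [pow_succ]
      show (((T - c • (1 : (E × ℝ) →L[ℝ] (E × ℝ))) ^ j) (T p - c • p)).2 = _
      rw [ih]
      show (-c) ^ j * ((T p).2 - c * p.2) = _
      rw [hT2]
      ring
  have h2 := h1 n (0, 1)
  rw [hcn] at h2
  have h3 : (0 : ℝ) = (-c) ^ n * 1 := h2
  have h4 : c = 0 := by
    rw [mul_one] at h3
    by_contra hne
    exact (pow_ne_zero n (neg_ne_zero.2 hne)) h3.symm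
  rw [h4, zero_smul, sub_zero] at hcn
  exact ⟨n, hcn⟩

/-- the vector group of a central lattice -/
structure Cn (hol : H →* (E ≃ᵃ[ℝ] E)) (B : Fin k → ((E × ℝ) →L[ℝ] (E × ℝ)))
    (γm : (Fin k → ℤ) → H) : Prop where
  hB : ∀ i p, (B i p).2 = 0
  hBc : ∀ i j, Commute (B i) (B j)
  hcomm : ∀ (γ : H) i, Commute (rp hol γ) (B i)
  hn : ∀ i, IsNilpotent (B i)
  hγ : ∀ m, rp hol (γm m) = exp (vecL B fun i => (m i : ℝ))
  hi : Function.Injective γm
  cen : ∀ m γ, γm m * γ = γ * γm m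
  add : ∀ m m', γm (m + m') = γm m * γm m'

theorem exists_Cn [SecondCountableTopology X] [ConnectedSpace X] (A : AffData X H E dev hol)
    (φ : Multiplicative (Fin k → ℤ) →* H) (hφ : Function.Injective φ)
    (hcen : ∀ m γ, φ m * γ = γ * φ m) :
    ∃ (B : Fin k → ((E × ℝ) →L[ℝ] (E × ℝ))) (γm : (Fin k → ℤ) → H), Cn hol B γm := by
  letI : MeasurableSpace E := borel E
  haveI : BorelSpace E := ⟨rfl⟩
  set S : Set ((E × ℝ) →L[ℝ] (E × ℝ)) := range fun m => rp hol (φ m) with hS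
  have hSc : ∀ a ∈ S, ∀ b ∈ S, a * b = b * a := by
    rintro _ ⟨m, rfl⟩ _ ⟨m', rfl⟩
    show rp hol (φ m) * rp hol (φ m') = rp hol (φ m') * rp hol (φ m)
    rw [← map_mul (rp hol), ← map_mul (rp hol), hcen]
  have hlaw := Pool.Agent.Results.MP_df2bd8_gt.CommensuratedSubgroups.result E X H dev hol A ⊤
    φ.range inferInstance
  have hun : ∀ a ∈ φ.range,
      Pool.Agent.Results.MP_df2bd8_gt.CommensuratedSubgroups.Unipotent hol a := by
    refine hlaw.unipotent ?_ ?_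
    · rintro _ ⟨m, rfl⟩ _ ⟨m', rfl⟩ q
      show (hol (φ m) * hol (φ m')) q = (hol (φ m') * hol (φ m)) q
      rw [← map_mul hol, ← map_mul hol, hcen]
    · rintro γ - _ ⟨m, rfl⟩
      refine ⟨φ m, ⟨m, rfl⟩, fun q => ?_⟩
      rw [← hcen, mul_inv_cancel_right]
  have hSn : ∀ a ∈ S, IsNilpotent (a - 1) := by
    rintro _ ⟨m, rfl⟩
    exact nil_of_unip (hun _ ⟨m, rfl⟩)
  have hlog : ∀ i : Fin k, ∃ b : (E × ℝ) →L[ℝ] (E × ℝ),
      exp b = rp hol (φ (Multiplicative.ofAdd (Pi.single i 1))) ^ 2 ∧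
        (∀ p, (b p).2 = 0) ∧ b ∈ Algebra.adjoin ℝ S := by
    intro i
    refine exists_logs S hSc ?_ ?_ _ ⟨_, rfl⟩
    · rintro _ ⟨m, rfl⟩
      refine ⟨rp hol (φ m⁻¹), ⟨_, rfl⟩, ?_⟩
      show rp hol (φ m) * rp hol (φ m⁻¹) = 1
      rw [← map_mul, ← map_mul, mul_inv_cancel, map_one, map_one]
    · rintro _ ⟨m, rfl⟩ p
      exact rp_snd _ _ _
  choose B hBe hB0 hBS using hlog
  have hcomm : ∀ (γ : H) i, Commute (rp hol γ) (B i) := by
    intro γ i
    refine Algebra.commute_of_mem_adjoin_of_forall_mem_commute (R := ℝ) (hBS i) ?_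
    rintro _ ⟨m, rfl⟩
    show rp hol γ * rp hol (φ m) = rp hol (φ m) * rp hol γ
    rw [← map_mul (rp hol), ← map_mul (rp hol), hcen]
  have hBc : ∀ i j, Commute (B i) (B j) := by
    intro i j
    refine Algebra.commute_of_mem_adjoin_of_forall_mem_commute (R := ℝ) (hBS j) ?_
    rintro _ ⟨m, rfl⟩
    exact (hcomm (φ m) i).symm
  have hkey := key_lat (ah hol) φ (fun _ => 2) B hBc (fun i => by rw [map_pow, hBe])
  refine ⟨B, fun m => φ (Multiplicative.ofAdd fun i => ((2 : ℕ) : ℤ) * m i), hB0, hBc, hcomm,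
    fun i => nil_of_adjoin S hSc hSn (hBS i) (hB0 i), hkey, ?_, fun m γ => hcen _ _, ?_⟩
  · intro m m' h
    have h1 := Multiplicative.ofAdd.injective (hφ h)
    funext i
    have h2 := congrFun h1 i
    have h3 : ((2 : ℕ) : ℤ) ≠ 0 := by norm_num
    exact mul_left_cancel₀ h3 h2
  · intro m m'
    show φ _ = φ _ * φ _
    rw [← map_mul, ← ofAdd_add]
    congr 2
    funext i
    exact mul_add _ _ _

end

end Pool.Agent.Helper63.Ce
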