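import Pool.Agent.Helper63.Ce.Fin

/-!
Project Ce (helper63): the main theorem on large centres.
-/

set_option autoImplicit false

open Set Filter Topology NormedSpace
open scoped Matrix commutatorElement

namespace Pool.Agent.Helper63.Ce

open Pool.Agent.Helper63.SV (rep vecL flow hatL hatL_apply hatL_snd al_ext exp_snd flow_eq flow_add
  flow_zero flow_cont flow_pres_of_nhds exp_fix vecL_apply vecL_snd vecL_comm exists_logs key_lat)
open Pool.Agent.W689.Mk Pool.Agent.TH94.MK Pool.Agent.Y449.MK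
open Pool.Agent.Helper63.Mk (V2 M2 Sk mm mv0 mv1 v2ext m2ext lam lam_apply lam_zero)

section
variable {X H E : Type} [NormedAddCommGroup E] [NormedSpace ℝ E] [FiniteDimensional ℝ E]
  [TopologicalSpace X] [T2Space X] [Group H] [MulAction H X]
  {dev : X → E} {hol : H →* (E ≃ᵃ[ℝ] E)} {k : ℕ} {B : Fin k → ((E × ℝ) →L[ℝ] (E × ℝ))}
  {γm : (Fin k → ℤ) → H}

/-- the directions of the orbits -/
def Sm (B : Fin k → ((E × ℝ) →L[ℝ] (E × ℝ))) : Submodule ℝ E :=
  (Fh B 1).comap (LinearMap.inl ℝ E ℝ)

theorem mem_Sm {x : E} : x ∈ Sm B ↔ ((x, 0) : E × ℝ) ∈ Fh B 1 := Iff.rfl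

/-- the evaluation at a point -/
noncomputable def Jx (hB : ∀ i p, (B i p).2 = 0) (x : E) : (Fin k → ℝ) →ₗ[ℝ] Sm B where
  toFun s := ⟨(vecL B s (x, 1)).1, by
    rw [mem_Sm]
    have h1 : (((vecL B s (x, 1)).1, 0) : E × ℝ) = vecL B s (x, 1) :=
      Prod.ext rfl (vecL_snd B hB s _).symm
    rw [h1]
    exact vecL_Fh (j := 0) s trivial⟩
  map_add' s t := by
    apply Subtype.ext
    show (vecL B (s + t) (x, 1)).1 = (vecL B s (x, 1)).1 + (vecL B t (x, 1)).1
    rw [map_add]
    rfl
  map_smul' c s := by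
    apply Subtype.ext
    show (vecL B (c • s) (x, 1)).1 = c • (vecL B s (x, 1)).1
    rw [map_smul]
    rfl

theorem Jx_inj [SecondCountableTopology X] [ConnectedSpace X] (A : AffData X H E dev hol)
    (hinj : Function.Injective dev) (C : Cn hol B γm) (x : E) :
    Function.Injective (Jx C.hB x) := by
  rw [injective_iff_map_eq_zero]
  intro s hs
  refine ind_all A hinj B C.hB C.hBc C.hcomm γm C.hγ C.hi x s ?_
  refine Prod.ext ?_ (vecL_snd B C.hB s _)
  exact congrArg (fun y : Sm B => (y : E)) hs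

/-- quotients of dimension at most one -/
theorem small_case [SecondCountableTopology X] [ConnectedSpace X] (A : AffData X H E dev hol)
    (hinj : Function.Injective dev) (C : Cn hol B γm)
    (hd : Module.finrank ℝ E ≤ Module.finrank ℝ (Sm B) + 1) : IsHomeomorph dev := by
  have hinv : ∀ γ, Sm B ≤ (Sm B).comap ((hol γ).linear : E →ₗ[ℝ] E) := by
    intro γ x hx
    have h1 := Fh_inv (C.hcomm γ) 1 (mem_Sm.1 hx)
    rw [rp_zero] at h1
    exact h1
  let f : H →* Module.End ℝ (E ⧸ Sm B) :=
    { toFun := fun γ => (Sm B).mapQ (Sm B) ((hol γ).linear : E →ₗ[ℝ] E) (hinv γ)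
      map_one' := by
        apply LinearMap.ext
        intro q
        obtain ⟨x, rfl⟩ := Submodule.mkQ_surjective _ q
        show (Sm B).mkQ ((hol 1).linear x) = (Sm B).mkQ x
        rw [map_one]
        rfl
      map_mul' := fun γ δ => by
        apply LinearMap.ext
        intro q
        obtain ⟨x, rfl⟩ := Submodule.mkQ_surjective _ q
        show (Sm B).mkQ ((hol (γ * δ)).linear x) = (Sm B).mkQ ((hol γ).linear ((hol δ).linear x))
        rw [map_mul]
        rfl }
  have hq : Module.finrank ℝ (E ⧸ Sm B) ≤ 1 := by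
    have := (Sm B).finrank_quotient_add_finrank
    omega
  obtain ⟨v0, hv0⟩ := finrank_le_one_iff.1 hq
  have hcom : ∀ g h : H, f g * f h = f h * f g := by
    intro g h
    apply LinearMap.ext
    intro q
    obtain ⟨c, rfl⟩ := hv0 q
    obtain ⟨a, ha⟩ := hv0 (f g v0)
    obtain ⟨b, hb⟩ := hv0 (f h v0)
    show f g (f h (c • v0)) = f h (f g (c • v0))
    rw [map_smul, map_smul, map_smul, map_smul, ← ha, ← hb, map_smul, map_smul, ← ha, ← hb,
      smul_comm a b]
  have h1 : derivedSeries H 1 ≤ f.ker := by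
    rw [derivedSeries_succ, Subgroup.commutator_le]
    intro g _ h _
    exact comm_one f (hcom g h)
  refine solv_case A hinj C 1 fun γ hγ v => ?_
  have h2 : f γ = 1 := h1 hγ
  have h3 : (Sm B).mkQ ((hol γ).linear v) = (Sm B).mkQ v :=
    congrArg (fun T : Module.End ℝ (E ⧸ Sm B) => T ((Sm B).mkQ v)) h2
  have h4 : (hol γ).linear v - v ∈ Sm B := (Submodule.Quotient.eq _).1 h3
  rw [rp_zero]
  have h5 : (((hol γ).linear v, 0) : E × ℝ) - (v, 0) = ((hol γ).linear v - v, 0) := by
    refine Prod.ext rfl ?_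
    exact sub_self _
  rw [h5]
  exact h4

/-- **Large centres.** -/
theorem centre [SecondCountableTopology X] [ConnectedSpace X] (A : AffData X H E dev hol)
    (hinj : Function.Injective dev) (φ : Multiplicative (Fin k → ℤ) →* H)
    (hφ : Function.Injective φ) (hcen : ∀ m γ, φ m * γ = γ * φ m)
    (hd : Module.finrank ℝ E ≤ k + 2) : IsHomeomorph dev := by
  obtain ⟨B, γm, C⟩ := exists_Cn A φ hφ hcen
  have hk : k ≤ Module.finrank ℝ (Sm B) := by
    have h1 := LinearMap.finrank_le_finrank_of_injective (Jx_inj A hinj C 0)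
    simpa using h1
  by_cases hs1 : Module.finrank ℝ E ≤ Module.finrank ℝ (Sm B) + 1
  · exact small_case A hinj C hs1
  · have hE : Module.finrank ℝ E = Module.finrank ℝ (Sm B) + 2 := by omega
    have hS : Module.finrank ℝ (Sm B) = k := by omega
    obtain ⟨e, he⟩ := Pool.Agent.Helper63.Mk.exists_coord (Sm B) hE
    let π : E →ₗ[ℝ] V2 := LinearMap.snd ℝ (Sm B) V2 ∘ₗ (e : E →ₗ[ℝ] (Sm B × V2))
    let e0 : V2 →ₗ[ℝ] E := (e.symm : (Sm B × V2) →ₗ[ℝ] E) ∘ₗ LinearMap.inr ℝ (Sm B) V2
    have P : Pq B e0 π := by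
      refine ⟨fun v => ?_, fun x => ?_⟩
      · show (e (e.symm (0, v))).2 = v
        rw [e.apply_symm_apply]
      · rw [← mem_Sm]
        constructor
        · intro hx
          have h1 : e x = ((e x).1, 0) := Prod.ext rfl hx
          have h2 : x = ((e x).1 : E) := by
            rw [← he, ← h1, e.symm_apply_apply]
          rw [h2]
          exact (e x).1.2
        · intro hx
          have h1 := he ⟨x, hx⟩
          show (e x).2 = 0
          have h2 : x = e.symm (⟨x, hx⟩, 0) := h1.symm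
          rw [h2, e.apply_symm_apply]
    have hs : ∀ x : E, ∀ q ∈ Fh B 1, ∃ s, vecL B s (x, 1) = q := by
      intro x q hq
      have h1 : Function.Surjective (Jx C.hB x) := by
        have h2 : Module.finrank ℝ (Fin k → ℝ) = Module.finrank ℝ (Sm B) := by
          rw [hS]; simp
        exact (LinearMap.injective_iff_surjective_of_finrank_eq_finrank h2).1 (Jx_inj A hinj C x)
      have hq2 := Fh_snd C.hB le_rfl hq
      have hq1 : q.1 ∈ Sm B := by
        rw [mem_Sm]
        have : q = (q.1, 0) := Prod.ext rfl hq2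
        rwa [← this]
      obtain ⟨s, h3⟩ := h1 ⟨q.1, hq1⟩
      refine ⟨s, Prod.ext ?_ ?_⟩
      · exact congrArg (fun y : Sm B => (y : E)) h3
      · rw [vecL_snd B C.hB, hq2]
    by_cases hirr : ∀ U : Submodule ℝ V2, (∀ γ, ∀ u ∈ U, Pl hol e0 π γ u ∈ U) → U = ⊥ ∨ U = ⊤
    · exact irr_case A hinj C P hs hirr
    · push Not at hirr
      obtain ⟨U, hU, hU0, hU1⟩ := hirr
      obtain ⟨u, huU, hu0⟩ := Submodule.exists_mem_ne_zero_of_ne_bot hU0
      have hfin : Module.finrank ℝ U < 2 := by
        have h1 := Submodule.finrank_lt hU1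
        simpa using h1
      have hspan : ∀ w ∈ U, ∃ c : ℝ, w = c • u := by
        intro w hw
        have h1 : Module.finrank ℝ U ≤ 1 := by omega
        obtain ⟨v0, hv0⟩ := finrank_le_one_iff.1 h1
        obtain ⟨a, ha⟩ := hv0 ⟨u, huU⟩
        obtain ⟨b, hb⟩ := hv0 ⟨w, hw⟩
        have ha' : a • (v0 : V2) = u := congrArg (fun y : U => (y : V2)) ha
        have hb' : b • (v0 : V2) = w := congrArg (fun y : U => (y : V2)) hb
        have ha0 : a ≠ 0 := by
          rintro rfl
          rw [zero_smul] at ha'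
          exact hu0 ha'.symm
        refine ⟨b * a⁻¹, ?_⟩
        rw [← ha', ← hb', smul_smul, mul_assoc, inv_mul_cancel₀ ha0, mul_one]
      have hline := line_ders (P.D C) hu0 fun γ => by
        obtain ⟨c, hc⟩ := hspan _ (hU γ u huU)
        exact ⟨c, by rw [P.D_mulVec]; exact hc⟩
      refine solv_case A hinj C 2 fun γ hγ v => ?_
      have h2 := hline γ hγ
      have h3 := P.lin C γ v
      rw [← P.D_mulVec C, h2, Matrix.one_mulVec] at h3
      rw [rp_zero]
      have h5 : (((hol γ).linear v, 0) : E × ℝ) - (v, 0) = ((hol γ).linear v - v, 0) := by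
        refine Prod.ext rfl ?_
        exact sub_self _
      rw [h5, ← P.ker, map_sub, h3, sub_self]

end

end Pool.Agent.Helper63.Ce
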