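import Pool.Agent.Helper63.Ce.Qt
import Pool.Agent.Helper63.Mk.Red
import Pool.Graph.R_seed8.Results.MP_df2bd8_gt.SolvableGroups

/-!
Project Ce (helper63): the plane quotient.
-/

set_option autoImplicit false

open Set Filter Topology NormedSpace
open scoped Matrix commutatorElement

namespace Pool.Agent.Helper63.Ce

open Pool.Agent.Helper63.SV (rep vecL flow hatL hatL_apply hatL_snd al_ext exp_snd flow_eq flow_add
  flow_zero flow_cont flow_pres_of_nhds exp_fix vecL_apply vecL_snd vecL_comm exists_logs key_lat)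
open Pool.Agent.W689.Mk Pool.Agent.TH94.MK Pool.Agent.Y449.MK
open Pool.Agent.Helper63.Mk (V2 M2 Sk mm mv0 mv1 v2ext m2ext lam lam_apply lam_zero)

section tri
variable {H : Type} [Group H]

theorem comm_one {M : Type} [Monoid M] (f : H →* M) {g h : H} (hgh : f g * f h = f h * f g) :
    f ⁅g, h⁆ = 1 := by
  have h1 : ⁅g, h⁆ = (g * h) * (h * g)⁻¹ := by
    rw [commutatorElement_def]
    group
  rw [h1, map_mul, map_mul, hgh, ← map_mul, ← map_mul, mul_inv_cancel, map_one]

/-- triangular groups -/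
theorem tri_ders (D : H →* M2) (h10 : ∀ γ, D γ 1 0 = 0) : ∀ γ ∈ derivedSeries H 2, D γ = 1 := by
  let ψ1 : H →* ℝ :=
    { toFun := fun γ => D γ 0 0
      map_one' := by rw [map_one]; rfl
      map_mul' := fun γ δ => by rw [map_mul, mm, h10 δ, mul_zero, add_zero] }
  let ψ2 : H →* ℝ :=
    { toFun := fun γ => D γ 1 1
      map_one' := by rw [map_one]; rfl
      map_mul' := fun γ δ => by rw [map_mul, mm, h10 γ, zero_mul, zero_add] }
  have h1 : derivedSeries H 1 ≤ ψ1.ker ⊓ ψ2.ker := by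
    rw [derivedSeries_succ, Subgroup.commutator_le]
    intro g _ h _
    exact ⟨comm_one ψ1 (mul_comm _ _), comm_one ψ2 (mul_comm _ _)⟩
  have h2 : derivedSeries H 2 ≤ D.ker := by
    rw [derivedSeries_succ, Subgroup.commutator_le]
    intro g hg h hh
    have a1 : D g 0 0 = 1 := (h1 hg).1
    have a2 : D g 1 1 = 1 := (h1 hg).2
    have b1 : D h 0 0 = 1 := (h1 hh).1
    have b2 : D h 1 1 = 1 := (h1 hh).2
    refine comm_one D ?_
    apply m2ext
    · rw [mm, mm, a1, b1, h10, h10]; ring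
    · rw [mm, mm, a1, b1, a2, b2]; ring
    · rw [mm, mm, h10, h10]; ring
    · rw [mm, mm, a2, b2, h10, h10]; ring
  exact fun γ hγ => h2 hγ

/-- groups which preserve a line -/
theorem line_ders (D : H →* M2) {u : V2} (hu : u ≠ 0) (h : ∀ γ, ∃ c : ℝ, D γ *ᵥ u = c • u) :
    ∀ γ ∈ derivedSeries H 2, D γ = 1 := by
  obtain ⟨v', hv'⟩ : ∃ v' : V2, lam u v' = 1 := by
    have h1 : 0 < u 0 * u 0 + u 1 * u 1 := by
      by_contra hc
      apply hu
      apply v2ext
      · show u 0 = 0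
        nlinarith [mul_self_nonneg (u 0), mul_self_nonneg (u 1)]
      · show u 1 = 0
        nlinarith [mul_self_nonneg (u 0), mul_self_nonneg (u 1)]
    refine ⟨![-(u 1) / (u 0 * u 0 + u 1 * u 1), (u 0) / (u 0 * u 0 + u 1 * u 1)], ?_⟩
    rw [lam_apply]
    show u 0 * (u 0 / (u 0 * u 0 + u 1 * u 1)) - u 1 * (-(u 1) / (u 0 * u 0 + u 1 * u 1)) = 1
    calc _ = (u 0 * u 0 + u 1 * u 1) / (u 0 * u 0 + u 1 * u 1) := by ring
      _ = 1 := div_self h1.ne'
  rw [lam_apply] at hv'
  let P : M2 := !![u 0, v' 0; u 1, v' 1]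
  let Q : M2 := !![v' 1, -v' 0; -u 1, u 0]
  have hPQ : P * Q = 1 := by
    apply m2ext
    · rw [mm]
      show u 0 * v' 1 + v' 0 * (-u 1) = 1
      linarith
    · rw [mm]
      show u 0 * (-v' 0) + v' 0 * u 0 = 0
      ring
    · rw [mm]
      show u 1 * v' 1 + v' 1 * (-u 1) = 0
      ring
    · rw [mm]
      show u 1 * (-v' 0) + v' 1 * u 0 = 1
      linarith
  have hQP : Q * P = 1 := by
    apply m2ext
    · rw [mm]
      show v' 1 * u 0 + (-v' 0) * u 1 = 1
      linarith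
    · rw [mm]
      show v' 1 * v' 0 + (-v' 0) * v' 1 = 0
      ring
    · rw [mm]
      show (-u 1) * u 0 + u 0 * u 1 = 0
      ring
    · rw [mm]
      show (-u 1) * v' 0 + u 0 * v' 1 = 1
      linarith
  let D' : H →* M2 :=
    { toFun := fun γ => Q * D γ * P
      map_one' := by rw [map_one, mul_one, hQP]
      map_mul' := fun γ δ => by
        rw [map_mul]
        calc Q * (D γ * D δ) * P = Q * D γ * 1 * D δ * P := by rw [mul_one]; simp only [mul_assoc]
          _ = _ := by rw [← hPQ]; simp only [mul_assoc] }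
  have h10 : ∀ γ, D' γ 1 0 = 0 := by
    intro γ
    obtain ⟨c, hc⟩ := h γ
    have e0 : D γ 0 0 * u 0 + D γ 0 1 * u 1 = c * u 0 := by rw [← mv0, hc]; rfl
    have e1 : D γ 1 0 * u 0 + D γ 1 1 * u 1 = c * u 1 := by rw [← mv1, hc]; rfl
    show (Q * D γ * P) 1 0 = 0
    rw [mm, mm, mm]
    show ((-u 1) * D γ 0 0 + u 0 * D γ 1 0) * u 0 + ((-u 1) * D γ 0 1 + u 0 * D γ 1 1) * u 1 = 0
    linear_combination (-u 1) * e0 + u 0 * e1
  intro γ hγ
  have h1 := tri_ders D' h10 γ hγ
  have h2 : Q * D γ * P = 1 := h1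
  calc D γ = P * (Q * D γ * P) * Q := by
        calc D γ = 1 * D γ * 1 := by rw [one_mul, mul_one]
          _ = (P * Q) * D γ * (P * Q) := by rw [hPQ]
          _ = _ := by simp only [mul_assoc]
    _ = 1 := by rw [h2, mul_one, hPQ]

end tri

section
variable {X H E : Type} [NormedAddCommGroup E] [NormedSpace ℝ E] [FiniteDimensional ℝ E]
  [TopologicalSpace X] [T2Space X] [Group H] [MulAction H X]
  {dev : X → E} {hol : H →* (E ≃ᵃ[ℝ] E)} {k : ℕ} {B : Fin k → ((E × ℝ) →L[ℝ] (E × ℝ))}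
  {γm : (Fin k → ℤ) → H}

/-- the solvable case -/
theorem solv_case [SecondCountableTopology X] [ConnectedSpace X] (A : AffData X H E dev hol)
    (hinj : Function.Injective dev) (C : Cn hol B γm) (a : ℕ)
    (h : ∀ γ ∈ derivedSeries H a, ∀ v : E, rp hol γ (v, 0) - (v, 0) ∈ Fh B 1) :
    IsHomeomorph dev := by
  obtain ⟨m, hm1, hm⟩ := Fh_nil C.hBc C.hn
  have h1 := ders (rp hol) C.hcomm (rp_snd hol) a h (m - 1)
  have h2 : ∀ γ ∈ derivedSeries H (a + 1 + (m - 1)), (AffineEquiv.linearHom.comp hol) γ = 1 := by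
    intro γ hγ
    have h3 := h1 hγ
    apply LinearEquiv.ext
    intro v
    have h4 := h3 (v, 0)
    have h5 : m - 1 + 1 = m := by omega
    rw [h5, hm, Submodule.mem_bot, rp_zero, sub_eq_zero] at h4
    exact congrArg Prod.fst h4
  exact Pool.Agent.Results.MP_df2bd8_gt.SolvableGroups.result E X H dev hol A hinj ⊤ inferInstance
    (solv_map _ _ h2)

end

end Pool.Agent.Helper63.Ce
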