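import Pool.Agent.Helper63.Ce.Lg
import Pool.Agent.Helper63.Mk.Sk

/-!
Project Ce (helper63): orbits of the vector group and the quotient.
-/

set_option autoImplicit false

open Set Filter Topology NormedSpace
open scoped Matrix

namespace Pool.Agent.Helper63.Ce

open Pool.Agent.Helper63.SV (rep vecL flow hatL hatL_apply hatL_snd al_ext exp_snd flow_eq flow_add
  flow_zero flow_cont flow_pres_of_nhds exp_fix vecL_apply vecL_snd vecL_comm exists_logs key_lat)
open Pool.Agent.W689.Mk Pool.Agent.TH94.MK Pool.Agent.Y449.MK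
open Pool.Agent.Helper63.Mk (V2 M2 Sk)

section
variable {E : Type} [NormedAddCommGroup E] [NormedSpace ℝ E] [FiniteDimensional ℝ E] {k : ℕ}
  {B : Fin k → ((E × ℝ) →L[ℝ] (E × ℝ))}

/-- the exponential to first order -/
theorem exp_first (s : Fin k → ℝ) {j : ℕ} {p : E × ℝ} (h : vecL B s p ∈ Fh B j) :
    exp (vecL B s) p - p - vecL B s p ∈ Fh B (j + 1) := by
  set T := vecL B s with hT
  have h2 := (NormedSpace.exp_series_hasSum_exp' (𝕂 := ℝ) T).mapL
    (ContinuousLinearMap.apply ℝ (E × ℝ) p)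
  have h3 := (hasSum_nat_add_iff' 2).2 h2
  have h4 : exp T p - p - T p = (ContinuousLinearMap.apply ℝ (E × ℝ) p) (exp T) -
      ∑ i ∈ Finset.range 2, (ContinuousLinearMap.apply ℝ (E × ℝ) p)
        ((((i.factorial : ℝ))⁻¹) • T ^ i) := by
    rw [Finset.sum_range_succ, Finset.sum_range_one]
    show exp T p - p - T p = exp T p - ((((Nat.factorial 0 : ℝ))⁻¹) • (T ^ 0) p +
      (((Nat.factorial 1 : ℝ))⁻¹) • (T ^ 1) p)
    rw [pow_zero, pow_one]
    simp only [Nat.factorial, Nat.cast_one, inv_one, one_smul]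
    show exp T p - p - T p = exp T p - (p + _)
    have : ((Nat.succ 0 * 1 : ℕ) : ℝ)⁻¹ • T p = T p := by simp
    rw [this]
    abel
  rw [h4]
  have hmem : ∀ n, (T ^ n) (T p) ∈ Fh B (j + n) := by
    intro n
    induction n with
    | zero => exact h
    | succ n ih =>
      rw [pow_succ']
      show T ((T ^ n) (T p)) ∈ _
      exact vecL_Fh s ih
  have hcl : IsClosed (Fh B (j + 1) : Set (E × ℝ)) := Submodule.closed_of_finiteDimensional _
  refine hcl.mem_of_tendsto h3 (Eventually.of_forall fun F => ?_)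
  refine Submodule.sum_mem _ fun n _ => ?_
  show (((n + 2).factorial : ℝ)⁻¹) • (T ^ (n + 2)) p ∈ _
  refine Submodule.smul_mem _ _ ?_
  have h5 : (T ^ (n + 2)) p = (T ^ (n + 1)) (T p) := by
    rw [pow_succ]
    rfl
  rw [h5]
  exact Fh_mono (by omega) (hmem (n + 1))

/-- the vector group moves points in the directions of the first term -/
theorem flow_mem (hB : ∀ i p, (B i p).2 = 0) (s : Fin k → ℝ) (x : E) :
    ((flow B s x - x, 0) : E × ℝ) ∈ Fh B 1 := by
  have h1 : vecL B s (x, 1) ∈ Fh B 1 := vecL_Fh (j := 0) s trivial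
  have h2 := Fh_anti (exp_first s h1)
  rw [flow_eq B hB] at h2
  have h3 := Submodule.add_mem _ h2 h1
  have h4 : (flow B s x, (1 : ℝ)) - (x, 1) - vecL B s (x, 1) + vecL B s (x, 1) =
      (flow B s x - x, 0) := by
    rw [sub_add_cancel]
    refine Prod.ext rfl ?_
    exact sub_self _
  rwa [h4] at h3

/-- transitivity -/
theorem trans_flow (hB : ∀ i p, (B i p).2 = 0) (hBc : ∀ i j, Commute (B i) (B j))
    (hn : ∀ i, IsNilpotent (B i)) (hs : ∀ x : E, ∀ q ∈ Fh B 1, ∃ s, vecL B s (x, 1) = q)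
    (x y : E) (hxy : ((y - x, 0) : E × ℝ) ∈ Fh B 1) : ∃ s, flow B s x = y := by
  obtain ⟨m, hm1, hm⟩ := Fh_nil hBc hn
  have key : ∀ i j, j + i = m → 1 ≤ j → ∀ x : E, ((y - x, 0) : E × ℝ) ∈ Fh B j →
      ∃ s, flow B s x = y := by
    intro i
    induction i with
    | zero =>
      intro j hj _ x hx
      rw [Nat.add_zero] at hj
      rw [hj, hm, Submodule.mem_bot] at hx
      have h1 : y - x = 0 := congrArg Prod.fst hx
      refine ⟨0, ?_⟩
      rw [flow_zero, eq_comm, ← sub_eq_zero, h1]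
    | succ i ih =>
      intro j hj hj1 x hx
      obtain ⟨s, h1⟩ := hs x _ (Fh_mono hj1 hx)
      have h2 : vecL B s (x, 1) ∈ Fh B j := by rw [h1]; exact hx
      have h3 := exp_first s h2
      rw [flow_eq B hB, h1] at h3
      have h4 : (flow B s x, (1 : ℝ)) - (x, 1) - (y - x, 0) = -((y - flow B s x, 0) : E × ℝ) := by
        refine Prod.ext ?_ ?_
        · show flow B s x - x - (y - x) = -(y - flow B s x)
          abel
        · show (1 : ℝ) - 1 - 0 = -0
          norm_num
      rw [h4, Submodule.neg_mem_iff] at h3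
      obtain ⟨t, ht⟩ := ih (j + 1) (by omega) (by omega) _ h3
      refine ⟨t + s, ?_⟩
      rw [flow_add B hB hBc]
      exact ht
  exact key (m - 1) 1 (by omega) le_rfl x hxy

end

end Pool.Agent.Helper63.Ce
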